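import Pool.Agent.Gen.F5.X123D1Cm3.S000
import Pool.Agent.Gen.F5.X123D1Cm3.S001

set_option autoImplicit false
set_option maxRecDepth 100000

namespace Pool.Agent.Gen.F5.X123D1Cm3

open Pool.Agent.Helper72.F5

def n0 : Cl (O (nat_lit 3)) (R (nat_lit 6353))
    (p (nat_lit 0x20000c) (nat_lit 0) (p (nat_lit 0x200004) (nat_lit 0) (p (nat_lit 0x101) (nat_lit 1) (p (nat_lit 0x81) (nat_lit 1) (p (nat_lit 0xc1) (nat_lit 1) (p (nat_lit 0x119) (nat_lit 1) (p (nat_lit 0xd1) (nat_lit 0) (p (nat_lit 0x89) (nat_lit 0) (p (nat_lit 0x41) (nat_lit 0) (p (nat_lit 0x8a0b09890a9a) (nat_lit 0) (p (nat_lit 0x98a89088a1a) (nat_lit 0) (p (nat_lit 0x890a0888079a) (nat_lit 0) (p (nat_lit 0x8898807871a) (nat_lit 0) (p (nat_lit 0x80000800080787088a) (nat_lit 0) (p (nat_lit 0x80000800078706860a) (nat_lit 0) (p (nat_lit 0x8806860782) (nat_lit 0) (p (nat_lit 0x786058702) (nat_lit 0) (p (nat_lit 0x8705850482)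 (nat_lit 0) (p (nat_lit 0x685048402) (nat_lit 0) (p (nat_lit 0x160014) (nat_lit 0) (p (nat_lit 0x60592) (nat_lit 0) (p (nat_lit 0x48512) (nat_lit 0) (p (nat_lit 0x50392) (nat_lit 0) (p (nat_lit 0x38312) (nat_lit 0) (p (nat_lit 0x40212) (nat_lit 0) (p (nat_lit 0x28192) (nat_lit 0) (p (nat_lit 0x30092) (nat_lit 0) (p (nat_lit 0x18012) (nat_lit 0) pn)))))))))))))))))))))))))))) :=
  Cl.node (nat_lit 0xb0014) (nat_lit 2) (by decide +kernel) (ClAll.succ (ClAll.succ ClAll.zero s17) s18)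

def n1 : Cl (O (nat_lit 3)) (R (nat_lit 6353))
    (p (nat_lit 0x200004) (nat_lit 0) (p (nat_lit 0x109) (nat_lit 1) (p (nat_lit 0x89) (nat_lit 1) (p (nat_lit 0xc9) (nat_lit 1) (p (nat_lit 0xc1) (nat_lit 0) (p (nat_lit 0x119) (nat_lit 1) (p (nat_lit 0xd1) (nat_lit 0) (p (nat_lit 0x81) (nat_lit 0) (p (nat_lit 0x41) (nat_lit 1) (p (nat_lit 0x8a0b09890a9a) (nat_lit 0) (p (nat_lit 0x98a89088a1a) (nat_lit 0) (p (nat_lit 0x890a0888079a) (nat_lit 0) (p (nat_lit 0x8898807871a) (nat_lit 0) (p (nat_lit 0x80000800080787088a) (nat_lit 0) (p (nat_lit 0x80000800078706860a) (nat_lit 0) (p (nat_lit 0x8806860782) (nat_lit 0) (p (nat_lit 0x786058702) (nat_lit 0) (p (nat_lit 0x8705850482) (nat_lit 0) (p (nat_lit 0x685048402) (nat_lit 0) (p (nat_lit 0x160014) (nat_lit 0) (p (nat_lit 0x60592) (nat_lit 0) (p (nat_lit 0x48512) (nat_lit 0) (p (nat_lit 0x50392) (nat_lit 0) (p (nat_lit 0x38312) (nat_lit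 0) (p (nat_lit 0x40212) (nat_lit 0) (p (nat_lit 0x28192) (nat_lit 0) (p (nat_lit 0x30092) (nat_lit 0) (p (nat_lit 0x18012) (nat_lit 0) pn)))))))))))))))))))))))))))) :=
  Cl.node (nat_lit 0x20000c) (nat_lit 2) (by decide +kernel) (ClAll.succ (ClAll.succ ClAll.zero s46) s47)

def n2 : Cl (O (nat_lit 3)) (R (nat_lit 6353))
    (p (nat_lit 0x200004) (nat_lit 0) (p (nat_lit 0xc9) (nat_lit 1) (p (nat_lit 0x81) (nat_lit 0) (p (nat_lit 0x101) (nat_lit 1) (p (nat_lit 0x119) (nat_lit 0) (p (nat_lit 0xd1) (nat_lit 0) (p (nat_lit 0x89) (nat_lit 0) (p (nat_lit 0x41) (nat_lit 0) (p (nat_lit 0x8a0b09890a9a) (nat_lit 0) (p (nat_lit 0x98a89088a1a) (nat_lit 0) (p (nat_lit 0x890a0888079a) (nat_lit 0) (p (nat_lit 0x8898807871a) (nat_lit 0) (p (nat_lit 0x80000800080787088a) (nat_lit 0) (p (nat_lit 0x80000800078706860a) (nat_lit 0) (p (nat_lit 0x8806860782) (nat_lit 0) (p (nat_lit 0x786058702) (nat_lit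 0) (p (nat_lit 0x8705850482) (nat_lit 0) (p (nat_lit 0x685048402) (nat_lit 0) (p (nat_lit 0x160014) (nat_lit 0) (p (nat_lit 0x60592) (nat_lit 0) (p (nat_lit 0x48512) (nat_lit 0) (p (nat_lit 0x50392) (nat_lit 0) (p (nat_lit 0x38312) (nat_lit 0) (p (nat_lit 0x40212) (nat_lit 0) (p (nat_lit 0x28192) (nat_lit 0) (p (nat_lit 0x30092) (nat_lit 0) (p (nat_lit 0x18012) (nat_lit 0) pn))))))))))))))))))))))))))) :=
  Cl.node (nat_lit 0x20000c) (nat_lit 2) (by decide +kernel) (ClAll.succ (ClAll.succ ClAll.zero s2) s3)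

def n3 : Cl (O (nat_lit 3)) (R (nat_lit 6353))
    (p (nat_lit 0x109) (nat_lit 1) (p (nat_lit 0x101) (nat_lit 0) (p (nat_lit 0x81) (nat_lit 1) (p (nat_lit 0xc1) (nat_lit 1) (p (nat_lit 0x119) (nat_lit 1) (p (nat_lit 0xd1) (nat_lit 0) (p (nat_lit 0x89) (nat_lit 0) (p (nat_lit 0x41) (nat_lit 0) (p (nat_lit 0x8a0b09890a9a) (nat_lit 0) (p (nat_lit 0x98a89088a1a) (nat_lit 0) (p (nat_lit 0x890a0888079a) (nat_lit 0) (p (nat_lit 0x8898807871a) (nat_lit 0) (p (nat_lit 0x80000800080787088a) (nat_lit 0) (p (nat_lit 0x80000800078706860a) (nat_lit 0) (p (nat_lit 0x8806860782) (nat_lit 0) (p (nat_lit 0x786058702) (nat_lit 0) (p (nat_lit 0x8705850482) (nat_lit 0) (p (nat_lit 0x685048402) (nat_lit 0) (p (nat_lit 0x160014) (nat_lit 0) (p (nat_lit 0x60592) (nat_lit 0) (p (nat_lit 0x48512) (nat_lit 0) (p (nat_lit 0x50392) (nat_lit 0) (p (nat_lit 0x38312) (nat_lit 0) (p (nat_lit 0x40212) (nat_lit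 0) (p (nat_lit 0x28192) (nat_lit 0) (p (nat_lit 0x30092) (nat_lit 0) (p (nat_lit 0x18012) (nat_lit 0) pn))))))))))))))))))))))))))) :=
  Cl.node (nat_lit 0x200004) (nat_lit 2) (by decide +kernel) (ClAll.succ (ClAll.succ ClAll.zero s15) s16)

def n4 : Cl (O (nat_lit 3)) (R (nat_lit 6353))
    (p (nat_lit 0x200004) (nat_lit 0) (p (nat_lit 0x101) (nat_lit 1) (p (nat_lit 0x81) (nat_lit 1) (p (nat_lit 0xc1) (nat_lit 1) (p (nat_lit 0x119) (nat_lit 1) (p (nat_lit 0xd1) (nat_lit 0) (p (nat_lit 0x89) (nat_lit 0) (p (nat_lit 0x41) (nat_lit 0) (p (nat_lit 0x8a0b09890a9a) (nat_lit 0) (p (nat_lit 0x98a89088a1a) (nat_lit 0) (p (nat_lit 0x890a0888079a) (nat_lit 0) (p (nat_lit 0x8898807871a) (nat_lit 0) (p (nat_lit 0x80000800080787088a) (nat_lit 0) (p (nat_lit 0x80000800078706860a) (nat_lit 0) (p (nat_lit 0x8806860782) (nat_lit 0) (p (nat_lit 0x786058702) (nat_lit 0) (p (nat_lit 0x8705850482)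 (nat_lit 0) (p (nat_lit 0x685048402) (nat_lit 0) (p (nat_lit 0x160014) (nat_lit 0) (p (nat_lit 0x60592) (nat_lit 0) (p (nat_lit 0x48512) (nat_lit 0) (p (nat_lit 0x50392) (nat_lit 0) (p (nat_lit 0x38312) (nat_lit 0) (p (nat_lit 0x40212) (nat_lit 0) (p (nat_lit 0x28192) (nat_lit 0) (p (nat_lit 0x30092) (nat_lit 0) (p (nat_lit 0x18012) (nat_lit 0) pn))))))))))))))))))))))))))) :=
  Cl.node (nat_lit 0x20000c) (nat_lit 2) (by decide +kernel) (ClAll.succ (ClAll.succ ClAll.zero n0) s19)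

def n5 : Cl (O (nat_lit 3)) (R (nat_lit 6353))
    (p (nat_lit 0x109) (nat_lit 1) (p (nat_lit 0x89) (nat_lit 1) (p (nat_lit 0xc9) (nat_lit 1) (p (nat_lit 0xc1) (nat_lit 0) (p (nat_lit 0x119) (nat_lit 1) (p (nat_lit 0xd1) (nat_lit 0) (p (nat_lit 0x81) (nat_lit 0) (p (nat_lit 0x41) (nat_lit 1) (p (nat_lit 0x8a0b09890a9a) (nat_lit 0) (p (nat_lit 0x98a89088a1a) (nat_lit 0) (p (nat_lit 0x890a0888079a) (nat_lit 0) (p (nat_lit 0x8898807871a) (nat_lit 0) (p (nat_lit 0x80000800080787088a) (nat_lit 0) (p (nat_lit 0x80000800078706860a) (nat_lit 0) (p (nat_lit 0x8806860782) (nat_lit 0) (p (nat_lit 0x786058702) (nat_lit 0) (p (nat_lit 0x8705850482) (nat_lit 0) (p (nat_lit 0x685048402) (nat_lit 0) (p (nat_lit 0x160014) (nat_lit 0) (p (nat_lit 0x60592) (nat_lit 0) (p (nat_lit 0x48512) (nat_lit 0) (p (nat_lit 0x50392) (nat_lit 0) (p (nat_lit 0x38312) (nat_lit 0) (p (nat_lit 0x40212) (nat_lit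 0) (p (nat_lit 0x28192) (nat_lit 0) (p (nat_lit 0x30092) (nat_lit 0) (p (nat_lit 0x18012) (nat_lit 0) pn))))))))))))))))))))))))))) :=
  Cl.node (nat_lit 0x200004) (nat_lit 2) (by decide +kernel) (ClAll.succ (ClAll.succ ClAll.zero n1) s48)

def n6 : Cl (O (nat_lit 3)) (R (nat_lit 6353))
    (p (nat_lit 0x200004) (nat_lit 0) (p (nat_lit 0x89) (nat_lit 1) (p (nat_lit 0x101) (nat_lit 1) (p (nat_lit 0xc1) (nat_lit 1) (p (nat_lit 0x119) (nat_lit 1) (p (nat_lit 0xd1) (nat_lit 0) (p (nat_lit 0x81) (nat_lit 0) (p (nat_lit 0x41) (nat_lit 1) (p (nat_lit 0x8a0b09890a9a) (nat_lit 0) (p (nat_lit 0x98a89088a1a) (nat_lit 0) (p (nat_lit 0x890a0888079a) (nat_lit 0) (p (nat_lit 0x8898807871a) (nat_lit 0) (p (nat_lit 0x80000800080787088a) (nat_lit 0) (p (nat_lit 0x80000800078706860a) (nat_lit 0) (p (nat_lit 0x8806860782) (nat_lit 0) (p (nat_lit 0x786058702) (nat_lit 0) (p (nat_lit 0x8705850482)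 (nat_lit 0) (p (nat_lit 0x685048402) (nat_lit 0) (p (nat_lit 0x160014) (nat_lit 0) (p (nat_lit 0x60592) (nat_lit 0) (p (nat_lit 0x48512) (nat_lit 0) (p (nat_lit 0x50392) (nat_lit 0) (p (nat_lit 0x38312) (nat_lit 0) (p (nat_lit 0x40212) (nat_lit 0) (p (nat_lit 0x28192) (nat_lit 0) (p (nat_lit 0x30092) (nat_lit 0) (p (nat_lit 0x18012) (nat_lit 0) pn))))))))))))))))))))))))))) :=
  Cl.node (nat_lit 0x20000c) (nat_lit 2) (by decide +kernel) (ClAll.succ (ClAll.succ ClAll.zero s53) s54)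

def n7 : Cl (O (nat_lit 3)) (R (nat_lit 6353))
    (p (nat_lit 0xc9) (nat_lit 1) (p (nat_lit 0x81) (nat_lit 0) (p (nat_lit 0x101) (nat_lit 1) (p (nat_lit 0x119) (nat_lit 0) (p (nat_lit 0xd1) (nat_lit 0) (p (nat_lit 0x89) (nat_lit 0) (p (nat_lit 0x41) (nat_lit 0) (p (nat_lit 0x8a0b09890a9a) (nat_lit 0) (p (nat_lit 0x98a89088a1a) (nat_lit 0) (p (nat_lit 0x890a0888079a) (nat_lit 0) (p (nat_lit 0x8898807871a) (nat_lit 0) (p (nat_lit 0x80000800080787088a) (nat_lit 0) (p (nat_lit 0x80000800078706860a) (nat_lit 0) (p (nat_lit 0x8806860782) (nat_lit 0) (p (nat_lit 0x786058702) (nat_lit 0) (p (nat_lit 0x8705850482) (nat_lit 0) (p (nat_lit 0x685048402) (nat_lit 0) (p (nat_lit 0x160014) (nat_lit 0) (p (nat_lit 0x60592) (nat_lit 0) (p (nat_lit 0x48512) (nat_lit 0) (p (nat_lit 0x50392) (nat_lit 0) (p (nat_lit 0x38312) (nat_lit 0) (p (nat_lit 0x40212) (nat_lit 0) (p (nat_lit 0x28192) (nat_lit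 0) (p (nat_lit 0x30092) (nat_lit 0) (p (nat_lit 0x18012) (nat_lit 0) pn)))))))))))))))))))))))))) :=
  Cl.node (nat_lit 0x200004) (nat_lit 2) (by decide +kernel) (ClAll.succ (ClAll.succ ClAll.zero n2) s4)

def n8 : Cl (O (nat_lit 3)) (R (nat_lit 6353))
    (p (nat_lit 0x109) (nat_lit 1) (p (nat_lit 0xc9) (nat_lit 1) (p (nat_lit 0xc1) (nat_lit 0) (p (nat_lit 0x119) (nat_lit 1) (p (nat_lit 0xd1) (nat_lit 0) (p (nat_lit 0x89) (nat_lit 0) (p (nat_lit 0x41) (nat_lit 0) (p (nat_lit 0x8a0b09890a9a) (nat_lit 0) (p (nat_lit 0x98a89088a1a) (nat_lit 0) (p (nat_lit 0x890a0888079a) (nat_lit 0) (p (nat_lit 0x8898807871a) (nat_lit 0) (p (nat_lit 0x80000800080787088a) (nat_lit 0) (p (nat_lit 0x80000800078706860a) (nat_lit 0) (p (nat_lit 0x8806860782) (nat_lit 0) (p (nat_lit 0x786058702) (nat_lit 0) (p (nat_lit 0x8705850482) (nat_lit 0) (p (nat_lit 0x685048402) (nat_lit 0) (p (nat_lit 0x160014)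 (nat_lit 0) (p (nat_lit 0x60592) (nat_lit 0) (p (nat_lit 0x48512) (nat_lit 0) (p (nat_lit 0x50392) (nat_lit 0) (p (nat_lit 0x38312) (nat_lit 0) (p (nat_lit 0x40212) (nat_lit 0) (p (nat_lit 0x28192) (nat_lit 0) (p (nat_lit 0x30092) (nat_lit 0) (p (nat_lit 0x18012) (nat_lit 0) pn)))))))))))))))))))))))))) :=
  Cl.node (nat_lit 0x200004) (nat_lit 2) (by decide +kernel) (ClAll.succ (ClAll.succ ClAll.zero s9) s10)

def n9 : Cl (O (nat_lit 3)) (R (nat_lit 6353))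
    (p (nat_lit 0x109) (nat_lit 1) (p (nat_lit 0x81) (nat_lit 0) (p (nat_lit 0xc1) (nat_lit 1) (p (nat_lit 0x119) (nat_lit 1) (p (nat_lit 0xd1) (nat_lit 0) (p (nat_lit 0x89) (nat_lit 0) (p (nat_lit 0x41) (nat_lit 0) (p (nat_lit 0x8a0b09890a9a) (nat_lit 0) (p (nat_lit 0x98a89088a1a) (nat_lit 0) (p (nat_lit 0x890a0888079a) (nat_lit 0) (p (nat_lit 0x8898807871a) (nat_lit 0) (p (nat_lit 0x80000800080787088a) (nat_lit 0) (p (nat_lit 0x80000800078706860a) (nat_lit 0) (p (nat_lit 0x8806860782) (nat_lit 0) (p (nat_lit 0x786058702) (nat_lit 0) (p (nat_lit 0x8705850482) (nat_lit 0) (p (nat_lit 0x685048402) (nat_lit 0) (p (nat_lit 0x160014) (nat_lit 0) (p (nat_lit 0x60592) (nat_lit 0) (p (nat_lit 0x48512) (nat_lit 0) (p (nat_lit 0x50392) (nat_lit 0) (p (nat_lit 0x38312) (nat_lit 0) (p (nat_lit 0x40212) (nat_lit 0) (p (nat_lit 0x28192) (nat_lit 0) (p (nat_lit 0x30092) (nat_lit 0) (p (nat_lit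 0x18012) (nat_lit 0) pn)))))))))))))))))))))))))) :=
  Cl.node (nat_lit 0x200004) (nat_lit 2) (by decide +kernel) (ClAll.succ (ClAll.succ ClAll.zero s12) s13)

def n10 : Cl (O (nat_lit 3)) (R (nat_lit 6353))
    (p (nat_lit 0x101) (nat_lit 0) (p (nat_lit 0x81) (nat_lit 1) (p (nat_lit 0xc1) (nat_lit 1) (p (nat_lit 0x119) (nat_lit 1) (p (nat_lit 0xd1) (nat_lit 0) (p (nat_lit 0x89) (nat_lit 0) (p (nat_lit 0x41) (nat_lit 0) (p (nat_lit 0x8a0b09890a9a) (nat_lit 0) (p (nat_lit 0x98a89088a1a) (nat_lit 0) (p (nat_lit 0x890a0888079a) (nat_lit 0) (p (nat_lit 0x8898807871a) (nat_lit 0) (p (nat_lit 0x80000800080787088a) (nat_lit 0) (p (nat_lit 0x80000800078706860a) (nat_lit 0) (p (nat_lit 0x8806860782) (nat_lit 0) (p (nat_lit 0x786058702) (nat_lit 0) (p (nat_lit 0x8705850482) (nat_lit 0) (p (nat_lit 0x685048402) (nat_lit 0) (p (nat_lit 0x160014) (nat_lit 0) (p (nat_lit 0x60592) (nat_lit 0)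 (p (nat_lit 0x48512) (nat_lit 0) (p (nat_lit 0x50392) (nat_lit 0) (p (nat_lit 0x38312) (nat_lit 0) (p (nat_lit 0x40212) (nat_lit 0) (p (nat_lit 0x28192) (nat_lit 0) (p (nat_lit 0x30092) (nat_lit 0) (p (nat_lit 0x18012) (nat_lit 0) pn)))))))))))))))))))))))))) :=
  Cl.node (nat_lit 0x109) (nat_lit 2) (by decide +kernel) (ClAll.succ (ClAll.succ ClAll.zero s14) n3)

def n11 : Cl (O (nat_lit 3)) (R (nat_lit 6353))
    (p (nat_lit 0x101) (nat_lit 1) (p (nat_lit 0x81) (nat_lit 1) (p (nat_lit 0xc1) (nat_lit 1) (p (nat_lit 0x119) (nat_lit 1) (p (nat_lit 0xd1) (nat_lit 0) (p (nat_lit 0x89) (nat_lit 0) (p (nat_lit 0x41) (nat_lit 0) (p (nat_lit 0x8a0b09890a9a) (nat_lit 0) (p (nat_lit 0x98a89088a1a) (nat_lit 0) (p (nat_lit 0x890a0888079a) (nat_lit 0) (p (nat_lit 0x8898807871a) (nat_lit 0) (p (nat_lit 0x80000800080787088a) (nat_lit 0) (p (nat_lit 0x80000800078706860a) (nat_lit 0) (p (nat_lit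 0x8806860782) (nat_lit 0) (p (nat_lit 0x786058702) (nat_lit 0) (p (nat_lit 0x8705850482) (nat_lit 0) (p (nat_lit 0x685048402) (nat_lit 0) (p (nat_lit 0x160014) (nat_lit 0) (p (nat_lit 0x60592) (nat_lit 0) (p (nat_lit 0x48512) (nat_lit 0) (p (nat_lit 0x50392) (nat_lit 0) (p (nat_lit 0x38312) (nat_lit 0) (p (nat_lit 0x40212) (nat_lit 0) (p (nat_lit 0x28192) (nat_lit 0) (p (nat_lit 0x30092) (nat_lit 0) (p (nat_lit 0x18012) (nat_lit 0) pn)))))))))))))))))))))))))) :=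
  Cl.node (nat_lit 0x200004) (nat_lit 2) (by decide +kernel) (ClAll.succ (ClAll.succ ClAll.zero n4) s20)

def n12 : Cl (O (nat_lit 3)) (R (nat_lit 6353))
    (p (nat_lit 0xc1) (nat_lit 0) (p (nat_lit 0x81) (nat_lit 1) (p (nat_lit 0x101) (nat_lit 1) (p (nat_lit 0x111) (nat_lit 0) (p (nat_lit 0xd1) (nat_lit 1) (p (nat_lit 0x89) (nat_lit 0) (p (nat_lit 0x41) (nat_lit 0) (p (nat_lit 0x8a0b09890a9a) (nat_lit 0) (p (nat_lit 0x98a89088a1a) (nat_lit 0) (p (nat_lit 0x890a0888079a) (nat_lit 0) (p (nat_lit 0x8898807871a) (nat_lit 0) (p (nat_lit 0x80000800080787088a) (nat_lit 0) (p (nat_lit 0x80000800078706860a) (nat_lit 0) (p (nat_lit 0x8806860782) (nat_lit 0) (p (nat_lit 0x786058702) (nat_lit 0) (p (nat_lit 0x8705850482) (nat_lit 0) (p (nat_lit 0x685048402) (nat_lit 0) (p (nat_lit 0x160014) (nat_lit 0) (p (nat_lit 0x60592) (nat_lit 0) (p (nat_lit 0x48512) (nat_lit 0) (p (nat_lit 0x50392)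 (nat_lit 0) (p (nat_lit 0x38312) (nat_lit 0) (p (nat_lit 0x40212) (nat_lit 0) (p (nat_lit 0x28192) (nat_lit 0) (p (nat_lit 0x30092) (nat_lit 0) (p (nat_lit 0x18012) (nat_lit 0) pn)))))))))))))))))))))))))) :=
  Cl.node (nat_lit 0x200004) (nat_lit 2) (by decide +kernel) (ClAll.succ (ClAll.succ ClAll.zero s23) s24)

def n13 : Cl (O (nat_lit 3)) (R (nat_lit 6353))
    (p (nat_lit 0x111) (nat_lit 1) (p (nat_lit 0xd1) (nat_lit 1) (p (nat_lit 0xc1) (nat_lit 0) (p (nat_lit 0x119) (nat_lit 1) (p (nat_lit 0xc9) (nat_lit 0) (p (nat_lit 0x89) (nat_lit 1) (p (nat_lit 0x41) (nat_lit 0) (p (nat_lit 0x8a0b09890a9a) (nat_lit 0) (p (nat_lit 0x98a89088a1a) (nat_lit 0) (p (nat_lit 0x890a0888079a) (nat_lit 0) (p (nat_lit 0x8898807871a) (nat_lit 0) (p (nat_lit 0x80000800080787088a) (nat_lit 0) (p (nat_lit 0x80000800078706860a) (nat_lit 0) (p (nat_lit 0x8806860782) (nat_lit 0) (p (nat_lit 0x786058702)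 (nat_lit 0) (p (nat_lit 0x8705850482) (nat_lit 0) (p (nat_lit 0x685048402) (nat_lit 0) (p (nat_lit 0x160014) (nat_lit 0) (p (nat_lit 0x60592) (nat_lit 0) (p (nat_lit 0x48512) (nat_lit 0) (p (nat_lit 0x50392) (nat_lit 0) (p (nat_lit 0x38312) (nat_lit 0) (p (nat_lit 0x40212) (nat_lit 0) (p (nat_lit 0x28192) (nat_lit 0) (p (nat_lit 0x30092) (nat_lit 0) (p (nat_lit 0x18012) (nat_lit 0) pn)))))))))))))))))))))))))) :=
  Cl.node (nat_lit 0x200004) (nat_lit 2) (by decide +kernel) (ClAll.succ (ClAll.succ ClAll.zero s31) s32)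

def n14 : Cl (O (nat_lit 3)) (R (nat_lit 6353))
    (p (nat_lit 0x89) (nat_lit 1) (p (nat_lit 0xc9) (nat_lit 1) (p (nat_lit 0xc1) (nat_lit 0) (p (nat_lit 0x119) (nat_lit 1) (p (nat_lit 0xd1) (nat_lit 0) (p (nat_lit 0x81) (nat_lit 0) (p (nat_lit 0x41) (nat_lit 1) (p (nat_lit 0x8a0b09890a9a) (nat_lit 0) (p (nat_lit 0x98a89088a1a) (nat_lit 0) (p (nat_lit 0x890a0888079a) (nat_lit 0) (p (nat_lit 0x8898807871a) (nat_lit 0) (p (nat_lit 0x80000800080787088a) (nat_lit 0) (p (nat_lit 0x80000800078706860a) (nat_lit 0) (p (nat_lit 0x8806860782) (nat_lit 0) (p (nat_lit 0x786058702) (nat_lit 0) (p (nat_lit 0x8705850482) (nat_lit 0) (p (nat_lit 0x685048402) (nat_lit 0) (p (nat_lit 0x160014) (nat_lit 0) (p (nat_lit 0x60592) (nat_lit 0) (p (nat_lit 0x48512) (nat_lit 0) (p (nat_lit 0x50392) (nat_lit 0) (p (nat_lit 0x38312) (nat_lit 0) (p (nat_lit 0x40212) (nat_lit 0) (p (nat_lit 0x28192) (nat_lit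 0) (p (nat_lit 0x30092) (nat_lit 0) (p (nat_lit 0x18012) (nat_lit 0) pn)))))))))))))))))))))))))) :=
  Cl.node (nat_lit 0x109) (nat_lit 2) (by decide +kernel) (ClAll.succ (ClAll.succ ClAll.zero s45) n5)

def n15 : Cl (O (nat_lit 3)) (R (nat_lit 6353))
    (p (nat_lit 0x89) (nat_lit 1) (p (nat_lit 0x101) (nat_lit 0) (p (nat_lit 0xc1) (nat_lit 1) (p (nat_lit 0x119) (nat_lit 1) (p (nat_lit 0xd1) (nat_lit 0) (p (nat_lit 0x81) (nat_lit 0) (p (nat_lit 0x41) (nat_lit 1) (p (nat_lit 0x8a0b09890a9a) (nat_lit 0) (p (nat_lit 0x98a89088a1a) (nat_lit 0) (p (nat_lit 0x890a0888079a) (nat_lit 0) (p (nat_lit 0x8898807871a) (nat_lit 0) (p (nat_lit 0x80000800080787088a) (nat_lit 0) (p (nat_lit 0x80000800078706860a) (nat_lit 0) (p (nat_lit 0x8806860782) (nat_lit 0) (p (nat_lit 0x786058702) (nat_lit 0) (p (nat_lit 0x8705850482) (nat_lit 0) (p (nat_lit 0x685048402) (nat_lit 0) (p (nat_lit 0x160014)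 (nat_lit 0) (p (nat_lit 0x60592) (nat_lit 0) (p (nat_lit 0x48512) (nat_lit 0) (p (nat_lit 0x50392) (nat_lit 0) (p (nat_lit 0x38312) (nat_lit 0) (p (nat_lit 0x40212) (nat_lit 0) (p (nat_lit 0x28192) (nat_lit 0) (p (nat_lit 0x30092) (nat_lit 0) (p (nat_lit 0x18012) (nat_lit 0) pn)))))))))))))))))))))))))) :=
  Cl.node (nat_lit 0x109) (nat_lit 2) (by decide +kernel) (ClAll.succ (ClAll.succ ClAll.zero s50) s51)

def n16 : Cl (O (nat_lit 3)) (R (nat_lit 6353))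
    (p (nat_lit 0x89) (nat_lit 1) (p (nat_lit 0x101) (nat_lit 1) (p (nat_lit 0xc1) (nat_lit 1) (p (nat_lit 0x119) (nat_lit 1) (p (nat_lit 0xd1) (nat_lit 0) (p (nat_lit 0x81) (nat_lit 0) (p (nat_lit 0x41) (nat_lit 1) (p (nat_lit 0x8a0b09890a9a) (nat_lit 0) (p (nat_lit 0x98a89088a1a) (nat_lit 0) (p (nat_lit 0x890a0888079a) (nat_lit 0) (p (nat_lit 0x8898807871a) (nat_lit 0) (p (nat_lit 0x80000800080787088a) (nat_lit 0) (p (nat_lit 0x80000800078706860a) (nat_lit 0) (p (nat_lit 0x8806860782) (nat_lit 0) (p (nat_lit 0x786058702) (nat_lit 0) (p (nat_lit 0x8705850482) (nat_lit 0) (p (nat_lit 0x685048402) (nat_lit 0) (p (nat_lit 0x160014) (nat_lit 0) (p (nat_lit 0x60592) (nat_lit 0) (p (nat_lit 0x48512) (nat_lit 0) (p (nat_lit 0x50392) (nat_lit 0) (p (nat_lit 0x38312) (nat_lit 0) (p (nat_lit 0x40212) (nat_lit 0) (p (nat_lit 0x28192) (nat_lit 0) (p (nat_lit 0x30092) (nat_lit 0) (p (nat_lit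 0x18012) (nat_lit 0) pn)))))))))))))))))))))))))) :=
  Cl.node (nat_lit 0x200004) (nat_lit 2) (by decide +kernel) (ClAll.succ (ClAll.succ ClAll.zero n6) s55)

def n17 : Cl (O (nat_lit 3)) (R (nat_lit 6353))
    (p (nat_lit 0x89) (nat_lit 1) (p (nat_lit 0x109) (nat_lit 1) (p (nat_lit 0x101) (nat_lit 0) (p (nat_lit 0x111) (nat_lit 0) (p (nat_lit 0xd1) (nat_lit 1) (p (nat_lit 0x81) (nat_lit 0) (p (nat_lit 0x41) (nat_lit 1) (p (nat_lit 0x8a0b09890a9a) (nat_lit 0) (p (nat_lit 0x98a89088a1a) (nat_lit 0) (p (nat_lit 0x890a0888079a) (nat_lit 0) (p (nat_lit 0x8898807871a) (nat_lit 0) (p (nat_lit 0x80000800080787088a) (nat_lit 0) (p (nat_lit 0x80000800078706860a) (nat_lit 0) (p (nat_lit 0x8806860782) (nat_lit 0) (p (nat_lit 0x786058702) (nat_lit 0) (p (nat_lit 0x8705850482) (nat_lit 0) (p (nat_lit 0x685048402) (nat_lit 0) (p (nat_lit 0x160014) (nat_lit 0) (p (nat_lit 0x60592) (nat_lit 0)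 (p (nat_lit 0x48512) (nat_lit 0) (p (nat_lit 0x50392) (nat_lit 0) (p (nat_lit 0x38312) (nat_lit 0) (p (nat_lit 0x40212) (nat_lit 0) (p (nat_lit 0x28192) (nat_lit 0) (p (nat_lit 0x30092) (nat_lit 0) (p (nat_lit 0x18012) (nat_lit 0) pn)))))))))))))))))))))))))) :=
  Cl.node (nat_lit 0xc9) (nat_lit 2) (by decide +kernel) (ClAll.succ (ClAll.succ ClAll.zero s58) s59)

def n18 : Cl (O (nat_lit 3)) (R (nat_lit 6353))
    (p (nat_lit 0x109) (nat_lit 1) (p (nat_lit 0xc9) (nat_lit 1) (p (nat_lit 0x89) (nat_lit 1) (p (nat_lit 0x111) (nat_lit 1) (p (nat_lit 0xd1) (nat_lit 1) (p (nat_lit 0x81) (nat_lit 0) (p (nat_lit 0x41) (nat_lit 1) (p (nat_lit 0x8a0b09890a9a) (nat_lit 0) (p (nat_lit 0x98a89088a1a) (nat_lit 0) (p (nat_lit 0x890a0888079a) (nat_lit 0) (p (nat_lit 0x8898807871a) (nat_lit 0) (p (nat_lit 0x80000800080787088a) (nat_lit 0) (p (nat_lit 0x80000800078706860a) (nat_lit 0) (p (nat_lit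 0x8806860782) (nat_lit 0) (p (nat_lit 0x786058702) (nat_lit 0) (p (nat_lit 0x8705850482) (nat_lit 0) (p (nat_lit 0x685048402) (nat_lit 0) (p (nat_lit 0x160014) (nat_lit 0) (p (nat_lit 0x60592) (nat_lit 0) (p (nat_lit 0x48512) (nat_lit 0) (p (nat_lit 0x50392) (nat_lit 0) (p (nat_lit 0x38312) (nat_lit 0) (p (nat_lit 0x40212) (nat_lit 0) (p (nat_lit 0x28192) (nat_lit 0) (p (nat_lit 0x30092) (nat_lit 0) (p (nat_lit 0x18012) (nat_lit 0) pn)))))))))))))))))))))))))) :=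
  Cl.node (nat_lit 0x200004) (nat_lit 2) (by decide +kernel) (ClAll.succ (ClAll.succ ClAll.zero s64) s65)

def n19 : Cl (O (nat_lit 3)) (R (nat_lit 6353))
    (p (nat_lit 0x81) (nat_lit 0) (p (nat_lit 0x101) (nat_lit 1) (p (nat_lit 0x119) (nat_lit 0) (p (nat_lit 0xd1) (nat_lit 0) (p (nat_lit 0x89) (nat_lit 0) (p (nat_lit 0x41) (nat_lit 0) (p (nat_lit 0x8a0b09890a9a) (nat_lit 0) (p (nat_lit 0x98a89088a1a) (nat_lit 0) (p (nat_lit 0x890a0888079a) (nat_lit 0) (p (nat_lit 0x8898807871a) (nat_lit 0) (p (nat_lit 0x80000800080787088a) (nat_lit 0) (p (nat_lit 0x80000800078706860a) (nat_lit 0) (p (nat_lit 0x8806860782) (nat_lit 0) (p (nat_lit 0x786058702) (nat_lit 0) (p (nat_lit 0x8705850482) (nat_lit 0) (p (nat_lit 0x685048402) (nat_lit 0) (p (nat_lit 0x160014) (nat_lit 0) (p (nat_lit 0x60592) (nat_lit 0) (p (nat_lit 0x48512) (nat_lit 0) (p (nat_lit 0x50392) (nat_lit 0) (p (nat_lit 0x38312)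 (nat_lit 0) (p (nat_lit 0x40212) (nat_lit 0) (p (nat_lit 0x28192) (nat_lit 0) (p (nat_lit 0x30092) (nat_lit 0) (p (nat_lit 0x18012) (nat_lit 0) pn))))))))))))))))))))))))) :=
  Cl.node (nat_lit 0xc9) (nat_lit 2) (by decide +kernel) (ClAll.succ (ClAll.succ ClAll.zero s1) n7)

def n20 : Cl (O (nat_lit 3)) (R (nat_lit 6353))
    (p (nat_lit 0x81) (nat_lit 1) (p (nat_lit 0x101) (nat_lit 1) (p (nat_lit 0x119) (nat_lit 0) (p (nat_lit 0xd1) (nat_lit 0) (p (nat_lit 0x89) (nat_lit 0) (p (nat_lit 0x41) (nat_lit 0) (p (nat_lit 0x8a0b09890a9a) (nat_lit 0) (p (nat_lit 0x98a89088a1a) (nat_lit 0) (p (nat_lit 0x890a0888079a) (nat_lit 0) (p (nat_lit 0x8898807871a) (nat_lit 0) (p (nat_lit 0x80000800080787088a) (nat_lit 0) (p (nat_lit 0x80000800078706860a) (nat_lit 0) (p (nat_lit 0x8806860782) (nat_lit 0) (p (nat_lit 0x786058702) (nat_lit 0) (p (nat_lit 0x8705850482) (nat_lit 0) (p (nat_lit 0x685048402)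 (nat_lit 0) (p (nat_lit 0x160014) (nat_lit 0) (p (nat_lit 0x60592) (nat_lit 0) (p (nat_lit 0x48512) (nat_lit 0) (p (nat_lit 0x50392) (nat_lit 0) (p (nat_lit 0x38312) (nat_lit 0) (p (nat_lit 0x40212) (nat_lit 0) (p (nat_lit 0x28192) (nat_lit 0) (p (nat_lit 0x30092) (nat_lit 0) (p (nat_lit 0x18012) (nat_lit 0) pn))))))))))))))))))))))))) :=
  Cl.node (nat_lit 0xc1) (nat_lit 2) (by decide +kernel) (ClAll.succ (ClAll.succ ClAll.zero s5) s6)

def n21 : Cl (O (nat_lit 3)) (R (nat_lit 6353))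
    (p (nat_lit 0xc9) (nat_lit 1) (p (nat_lit 0xc1) (nat_lit 0) (p (nat_lit 0x119) (nat_lit 1) (p (nat_lit 0xd1) (nat_lit 0) (p (nat_lit 0x89) (nat_lit 0) (p (nat_lit 0x41) (nat_lit 0) (p (nat_lit 0x8a0b09890a9a) (nat_lit 0) (p (nat_lit 0x98a89088a1a) (nat_lit 0) (p (nat_lit 0x890a0888079a) (nat_lit 0) (p (nat_lit 0x8898807871a) (nat_lit 0) (p (nat_lit 0x80000800080787088a) (nat_lit 0) (p (nat_lit 0x80000800078706860a) (nat_lit 0) (p (nat_lit 0x8806860782) (nat_lit 0) (p (nat_lit 0x786058702) (nat_lit 0) (p (nat_lit 0x8705850482) (nat_lit 0) (p (nat_lit 0x685048402) (nat_lit 0) (p (nat_lit 0x160014) (nat_lit 0) (p (nat_lit 0x60592) (nat_lit 0) (p (nat_lit 0x48512) (nat_lit 0) (p (nat_lit 0x50392) (nat_lit 0) (p (nat_lit 0x38312) (nat_lit 0) (p (nat_lit 0x40212) (nat_lit 0) (p (nat_lit 0x28192) (nat_lit 0) (p (nat_lit 0x30092) (nat_lit 0) (p (nat_lit 0x18012) (nat_lit 0) pn)))))))))))))))))))))))))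 :=
  Cl.node (nat_lit 0x109) (nat_lit 2) (by decide +kernel) (ClAll.succ (ClAll.succ ClAll.zero s8) n8)

def n22 : Cl (O (nat_lit 3)) (R (nat_lit 6353))
    (p (nat_lit 0x81) (nat_lit 0) (p (nat_lit 0xc1) (nat_lit 1) (p (nat_lit 0x119) (nat_lit 1) (p (nat_lit 0xd1) (nat_lit 0) (p (nat_lit 0x89) (nat_lit 0) (p (nat_lit 0x41) (nat_lit 0) (p (nat_lit 0x8a0b09890a9a) (nat_lit 0) (p (nat_lit 0x98a89088a1a) (nat_lit 0) (p (nat_lit 0x890a0888079a) (nat_lit 0) (p (nat_lit 0x8898807871a) (nat_lit 0) (p (nat_lit 0x80000800080787088a) (nat_lit 0) (p (nat_lit 0x80000800078706860a) (nat_lit 0) (p (nat_lit 0x8806860782) (nat_lit 0) (p (nat_lit 0x786058702) (nat_lit 0) (p (nat_lit 0x8705850482) (nat_lit 0) (p (nat_lit 0x685048402) (nat_lit 0) (p (nat_lit 0x160014) (nat_lit 0) (p (nat_lit 0x60592) (nat_lit 0) (p (nat_lit 0x48512) (nat_lit 0) (p (nat_lit 0x50392) (nat_lit 0) (p (nat_lit 0x38312)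 (nat_lit 0) (p (nat_lit 0x40212) (nat_lit 0) (p (nat_lit 0x28192) (nat_lit 0) (p (nat_lit 0x30092) (nat_lit 0) (p (nat_lit 0x18012) (nat_lit 0) pn))))))))))))))))))))))))) :=
  Cl.node (nat_lit 0x109) (nat_lit 2) (by decide +kernel) (ClAll.succ (ClAll.succ ClAll.zero s11) n9)

def n23 : Cl (O (nat_lit 3)) (R (nat_lit 6353))
    (p (nat_lit 0x81) (nat_lit 1) (p (nat_lit 0xc1) (nat_lit 1) (p (nat_lit 0x119) (nat_lit 1) (p (nat_lit 0xd1) (nat_lit 0) (p (nat_lit 0x89) (nat_lit 0) (p (nat_lit 0x41) (nat_lit 0) (p (nat_lit 0x8a0b09890a9a) (nat_lit 0) (p (nat_lit 0x98a89088a1a) (nat_lit 0) (p (nat_lit 0x890a0888079a) (nat_lit 0) (p (nat_lit 0x8898807871a) (nat_lit 0) (p (nat_lit 0x80000800080787088a) (nat_lit 0) (p (nat_lit 0x80000800078706860a) (nat_lit 0) (p (nat_lit 0x8806860782) (nat_lit 0) (p (nat_lit 0x786058702) (nat_lit 0) (p (nat_lit 0x8705850482) (nat_lit 0) (p (nat_lit 0x685048402)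 (nat_lit 0) (p (nat_lit 0x160014) (nat_lit 0) (p (nat_lit 0x60592) (nat_lit 0) (p (nat_lit 0x48512) (nat_lit 0) (p (nat_lit 0x50392) (nat_lit 0) (p (nat_lit 0x38312) (nat_lit 0) (p (nat_lit 0x40212) (nat_lit 0) (p (nat_lit 0x28192) (nat_lit 0) (p (nat_lit 0x30092) (nat_lit 0) (p (nat_lit 0x18012) (nat_lit 0) pn))))))))))))))))))))))))) :=
  Cl.node (nat_lit 0x101) (nat_lit 2) (by decide +kernel) (ClAll.succ (ClAll.succ ClAll.zero n10) n11)

def n24 : Cl (O (nat_lit 3)) (R (nat_lit 6353))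
    (p (nat_lit 0x81) (nat_lit 1) (p (nat_lit 0x101) (nat_lit 1) (p (nat_lit 0x111) (nat_lit 0) (p (nat_lit 0xd1) (nat_lit 1) (p (nat_lit 0x89) (nat_lit 0) (p (nat_lit 0x41) (nat_lit 0) (p (nat_lit 0x8a0b09890a9a) (nat_lit 0) (p (nat_lit 0x98a89088a1a) (nat_lit 0) (p (nat_lit 0x890a0888079a) (nat_lit 0) (p (nat_lit 0x8898807871a) (nat_lit 0) (p (nat_lit 0x80000800080787088a) (nat_lit 0) (p (nat_lit 0x80000800078706860a) (nat_lit 0) (p (nat_lit 0x8806860782) (nat_lit 0) (p (nat_lit 0x786058702) (nat_lit 0) (p (nat_lit 0x8705850482) (nat_lit 0) (p (nat_lit 0x685048402) (nat_lit 0) (p (nat_lit 0x160014) (nat_lit 0) (p (nat_lit 0x60592) (nat_lit 0) (p (nat_lit 0x48512) (nat_lit 0) (p (nat_lit 0x50392) (nat_lit 0) (p (nat_lit 0x38312) (nat_lit 0) (p (nat_lit 0x40212) (nat_lit 0) (p (nat_lit 0x28192) (nat_lit 0) (p (nat_lit 0x30092) (nat_lit 0) (p (nat_lit 0x18012) (nat_lit 0) pn)))))))))))))))))))))))))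 :=
  Cl.node (nat_lit 0xc1) (nat_lit 2) (by decide +kernel) (ClAll.succ (ClAll.succ ClAll.zero n12) s25)

def n25 : Cl (O (nat_lit 3)) (R (nat_lit 6353))
    (p (nat_lit 0xd1) (nat_lit 1) (p (nat_lit 0xc1) (nat_lit 0) (p (nat_lit 0x119) (nat_lit 1) (p (nat_lit 0xc9) (nat_lit 0) (p (nat_lit 0x89) (nat_lit 1) (p (nat_lit 0x41) (nat_lit 0) (p (nat_lit 0x8a0b09890a9a) (nat_lit 0) (p (nat_lit 0x98a89088a1a) (nat_lit 0) (p (nat_lit 0x890a0888079a) (nat_lit 0) (p (nat_lit 0x8898807871a) (nat_lit 0) (p (nat_lit 0x80000800080787088a) (nat_lit 0) (p (nat_lit 0x80000800078706860a) (nat_lit 0) (p (nat_lit 0x8806860782) (nat_lit 0) (p (nat_lit 0x786058702) (nat_lit 0) (p (nat_lit 0x8705850482) (nat_lit 0) (p (nat_lit 0x685048402) (nat_lit 0) (p (nat_lit 0x160014) (nat_lit 0) (p (nat_lit 0x60592) (nat_lit 0) (p (nat_lit 0x48512) (nat_lit 0) (p (nat_lit 0x50392) (nat_lit 0) (p (nat_lit 0x38312)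 (nat_lit 0) (p (nat_lit 0x40212) (nat_lit 0) (p (nat_lit 0x28192) (nat_lit 0) (p (nat_lit 0x30092) (nat_lit 0) (p (nat_lit 0x18012) (nat_lit 0) pn))))))))))))))))))))))))) :=
  Cl.node (nat_lit 0x111) (nat_lit 2) (by decide +kernel) (ClAll.succ (ClAll.succ ClAll.zero s30) n13)

def n26 : Cl (O (nat_lit 3)) (R (nat_lit 6353))
    (p (nat_lit 0x101) (nat_lit 1) (p (nat_lit 0xc1) (nat_lit 1) (p (nat_lit 0x119) (nat_lit 1) (p (nat_lit 0xc9) (nat_lit 0) (p (nat_lit 0x89) (nat_lit 1) (p (nat_lit 0x41) (nat_lit 0) (p (nat_lit 0x8a0b09890a9a) (nat_lit 0) (p (nat_lit 0x98a89088a1a) (nat_lit 0) (p (nat_lit 0x890a0888079a) (nat_lit 0) (p (nat_lit 0x8898807871a) (nat_lit 0) (p (nat_lit 0x80000800080787088a) (nat_lit 0) (p (nat_lit 0x80000800078706860a) (nat_lit 0) (p (nat_lit 0x8806860782) (nat_lit 0) (p (nat_lit 0x786058702) (nat_lit 0) (p (nat_lit 0x8705850482) (nat_lit 0) (p (nat_lit 0x685048402)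 (nat_lit 0) (p (nat_lit 0x160014) (nat_lit 0) (p (nat_lit 0x60592) (nat_lit 0) (p (nat_lit 0x48512) (nat_lit 0) (p (nat_lit 0x50392) (nat_lit 0) (p (nat_lit 0x38312) (nat_lit 0) (p (nat_lit 0x40212) (nat_lit 0) (p (nat_lit 0x28192) (nat_lit 0) (p (nat_lit 0x30092) (nat_lit 0) (p (nat_lit 0x18012) (nat_lit 0) pn))))))))))))))))))))))))) :=
  Cl.node (nat_lit 0x200004) (nat_lit 2) (by decide +kernel) (ClAll.succ (ClAll.succ ClAll.zero s34) s35)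

def n27 : Cl (O (nat_lit 3)) (R (nat_lit 6353))
    (p (nat_lit 0x109) (nat_lit 1) (p (nat_lit 0x101) (nat_lit 0) (p (nat_lit 0x119) (nat_lit 0) (p (nat_lit 0xd1) (nat_lit 0) (p (nat_lit 0x81) (nat_lit 0) (p (nat_lit 0x41) (nat_lit 1) (p (nat_lit 0x8a0b09890a9a) (nat_lit 0) (p (nat_lit 0x98a89088a1a) (nat_lit 0) (p (nat_lit 0x890a0888079a) (nat_lit 0) (p (nat_lit 0x8898807871a) (nat_lit 0) (p (nat_lit 0x80000800080787088a) (nat_lit 0) (p (nat_lit 0x80000800078706860a) (nat_lit 0) (p (nat_lit 0x8806860782) (nat_lit 0) (p (nat_lit 0x786058702) (nat_lit 0) (p (nat_lit 0x8705850482) (nat_lit 0) (p (nat_lit 0x685048402) (nat_lit 0) (p (nat_lit 0x160014) (nat_lit 0) (p (nat_lit 0x60592) (nat_lit 0) (p (nat_lit 0x48512) (nat_lit 0) (p (nat_lit 0x50392) (nat_lit 0) (p (nat_lit 0x38312) (nat_lit 0) (p (nat_lit 0x40212) (nat_lit 0) (p (nat_lit 0x28192) (nat_lit 0) (p (nat_lit 0x30092)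 (nat_lit 0) (p (nat_lit 0x18012) (nat_lit 0) pn))))))))))))))))))))))))) :=
  Cl.node (nat_lit 0x89) (nat_lit 2) (by decide +kernel) (ClAll.succ (ClAll.succ ClAll.zero s38) s39)

def n28 : Cl (O (nat_lit 3)) (R (nat_lit 6353))
    (p (nat_lit 0xc1) (nat_lit 0) (p (nat_lit 0x101) (nat_lit 1) (p (nat_lit 0x119) (nat_lit 0) (p (nat_lit 0xd1) (nat_lit 0) (p (nat_lit 0x81) (nat_lit 0) (p (nat_lit 0x41) (nat_lit 1) (p (nat_lit 0x8a0b09890a9a) (nat_lit 0) (p (nat_lit 0x98a89088a1a) (nat_lit 0) (p (nat_lit 0x890a0888079a) (nat_lit 0) (p (nat_lit 0x8898807871a) (nat_lit 0) (p (nat_lit 0x80000800080787088a) (nat_lit 0) (p (nat_lit 0x80000800078706860a) (nat_lit 0) (p (nat_lit 0x8806860782) (nat_lit 0) (p (nat_lit 0x786058702) (nat_lit 0) (p (nat_lit 0x8705850482) (nat_lit 0) (p (nat_lit 0x685048402) (nat_lit 0) (p (nat_lit 0x160014) (nat_lit 0) (p (nat_lit 0x60592) (nat_lit 0) (p (nat_lit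 0x48512) (nat_lit 0) (p (nat_lit 0x50392) (nat_lit 0) (p (nat_lit 0x38312) (nat_lit 0) (p (nat_lit 0x40212) (nat_lit 0) (p (nat_lit 0x28192) (nat_lit 0) (p (nat_lit 0x30092) (nat_lit 0) (p (nat_lit 0x18012) (nat_lit 0) pn))))))))))))))))))))))))) :=
  Cl.node (nat_lit 0x89) (nat_lit 2) (by decide +kernel) (ClAll.succ (ClAll.succ ClAll.zero s40) s41)

def n29 : Cl (O (nat_lit 3)) (R (nat_lit 6353))
    (p (nat_lit 0xc9) (nat_lit 1) (p (nat_lit 0xc1) (nat_lit 0) (p (nat_lit 0x119) (nat_lit 1) (p (nat_lit 0xd1) (nat_lit 0) (p (nat_lit 0x81) (nat_lit 0) (p (nat_lit 0x41) (nat_lit 1) (p (nat_lit 0x8a0b09890a9a) (nat_lit 0) (p (nat_lit 0x98a89088a1a) (nat_lit 0) (p (nat_lit 0x890a0888079a) (nat_lit 0) (p (nat_lit 0x8898807871a) (nat_lit 0) (p (nat_lit 0x80000800080787088a) (nat_lit 0) (p (nat_lit 0x80000800078706860a) (nat_lit 0) (p (nat_lit 0x8806860782) (nat_lit 0) (p (nat_lit 0x786058702)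 (nat_lit 0) (p (nat_lit 0x8705850482) (nat_lit 0) (p (nat_lit 0x685048402) (nat_lit 0) (p (nat_lit 0x160014) (nat_lit 0) (p (nat_lit 0x60592) (nat_lit 0) (p (nat_lit 0x48512) (nat_lit 0) (p (nat_lit 0x50392) (nat_lit 0) (p (nat_lit 0x38312) (nat_lit 0) (p (nat_lit 0x40212) (nat_lit 0) (p (nat_lit 0x28192) (nat_lit 0) (p (nat_lit 0x30092) (nat_lit 0) (p (nat_lit 0x18012) (nat_lit 0) pn))))))))))))))))))))))))) :=
  Cl.node (nat_lit 0x89) (nat_lit 2) (by decide +kernel) (ClAll.succ (ClAll.succ ClAll.zero s44) n14)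

def n30 : Cl (O (nat_lit 3)) (R (nat_lit 6353))
    (p (nat_lit 0x101) (nat_lit 0) (p (nat_lit 0xc1) (nat_lit 1) (p (nat_lit 0x119) (nat_lit 1) (p (nat_lit 0xd1) (nat_lit 0) (p (nat_lit 0x81) (nat_lit 0) (p (nat_lit 0x41) (nat_lit 1) (p (nat_lit 0x8a0b09890a9a) (nat_lit 0) (p (nat_lit 0x98a89088a1a) (nat_lit 0) (p (nat_lit 0x890a0888079a) (nat_lit 0) (p (nat_lit 0x8898807871a) (nat_lit 0) (p (nat_lit 0x80000800080787088a) (nat_lit 0) (p (nat_lit 0x80000800078706860a) (nat_lit 0) (p (nat_lit 0x8806860782) (nat_lit 0) (p (nat_lit 0x786058702) (nat_lit 0) (p (nat_lit 0x8705850482) (nat_lit 0) (p (nat_lit 0x685048402) (nat_lit 0) (p (nat_lit 0x160014) (nat_lit 0) (p (nat_lit 0x60592) (nat_lit 0) (p (nat_lit 0x48512) (nat_lit 0) (p (nat_lit 0x50392) (nat_lit 0) (p (nat_lit 0x38312) (nat_lit 0) (p (nat_lit 0x40212) (nat_lit 0) (p (nat_lit 0x28192) (nat_lit 0) (p (nat_lit 0x30092) (nat_lit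 0) (p (nat_lit 0x18012) (nat_lit 0) pn))))))))))))))))))))))))) :=
  Cl.node (nat_lit 0x89) (nat_lit 2) (by decide +kernel) (ClAll.succ (ClAll.succ ClAll.zero s49) n15)

def n31 : Cl (O (nat_lit 3)) (R (nat_lit 6353))
    (p (nat_lit 0x101) (nat_lit 1) (p (nat_lit 0xc1) (nat_lit 1) (p (nat_lit 0x119) (nat_lit 1) (p (nat_lit 0xd1) (nat_lit 0) (p (nat_lit 0x81) (nat_lit 0) (p (nat_lit 0x41) (nat_lit 1) (p (nat_lit 0x8a0b09890a9a) (nat_lit 0) (p (nat_lit 0x98a89088a1a) (nat_lit 0) (p (nat_lit 0x890a0888079a) (nat_lit 0) (p (nat_lit 0x8898807871a) (nat_lit 0) (p (nat_lit 0x80000800080787088a) (nat_lit 0) (p (nat_lit 0x80000800078706860a) (nat_lit 0) (p (nat_lit 0x8806860782) (nat_lit 0) (p (nat_lit 0x786058702) (nat_lit 0) (p (nat_lit 0x8705850482) (nat_lit 0) (p (nat_lit 0x685048402) (nat_lit 0) (p (nat_lit 0x160014) (nat_lit 0) (p (nat_lit 0x60592) (nat_lit 0) (p (nat_lit 0x48512)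 (nat_lit 0) (p (nat_lit 0x50392) (nat_lit 0) (p (nat_lit 0x38312) (nat_lit 0) (p (nat_lit 0x40212) (nat_lit 0) (p (nat_lit 0x28192) (nat_lit 0) (p (nat_lit 0x30092) (nat_lit 0) (p (nat_lit 0x18012) (nat_lit 0) pn))))))))))))))))))))))))) :=
  Cl.node (nat_lit 0x89) (nat_lit 2) (by decide +kernel) (ClAll.succ (ClAll.succ ClAll.zero s52) n16)

def n32 : Cl (O (nat_lit 3)) (R (nat_lit 6353))
    (p (nat_lit 0x109) (nat_lit 1) (p (nat_lit 0x101) (nat_lit 0) (p (nat_lit 0x111) (nat_lit 0) (p (nat_lit 0xd1) (nat_lit 1) (p (nat_lit 0x81) (nat_lit 0) (p (nat_lit 0x41) (nat_lit 1) (p (nat_lit 0x8a0b09890a9a) (nat_lit 0) (p (nat_lit 0x98a89088a1a) (nat_lit 0) (p (nat_lit 0x890a0888079a) (nat_lit 0) (p (nat_lit 0x8898807871a) (nat_lit 0) (p (nat_lit 0x80000800080787088a) (nat_lit 0) (p (nat_lit 0x80000800078706860a) (nat_lit 0) (p (nat_lit 0x8806860782) (nat_lit 0) (p (nat_lit 0x786058702)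 (nat_lit 0) (p (nat_lit 0x8705850482) (nat_lit 0) (p (nat_lit 0x685048402) (nat_lit 0) (p (nat_lit 0x160014) (nat_lit 0) (p (nat_lit 0x60592) (nat_lit 0) (p (nat_lit 0x48512) (nat_lit 0) (p (nat_lit 0x50392) (nat_lit 0) (p (nat_lit 0x38312) (nat_lit 0) (p (nat_lit 0x40212) (nat_lit 0) (p (nat_lit 0x28192) (nat_lit 0) (p (nat_lit 0x30092) (nat_lit 0) (p (nat_lit 0x18012) (nat_lit 0) pn))))))))))))))))))))))))) :=
  Cl.node (nat_lit 0x89) (nat_lit 2) (by decide +kernel) (ClAll.succ (ClAll.succ ClAll.zero s57) n17)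

def n33 : Cl (O (nat_lit 3)) (R (nat_lit 6353))
    (p (nat_lit 0xc9) (nat_lit 1) (p (nat_lit 0x89) (nat_lit 1) (p (nat_lit 0x111) (nat_lit 1) (p (nat_lit 0xd1) (nat_lit 1) (p (nat_lit 0x81) (nat_lit 0) (p (nat_lit 0x41) (nat_lit 1) (p (nat_lit 0x8a0b09890a9a) (nat_lit 0) (p (nat_lit 0x98a89088a1a) (nat_lit 0) (p (nat_lit 0x890a0888079a) (nat_lit 0) (p (nat_lit 0x8898807871a) (nat_lit 0) (p (nat_lit 0x80000800080787088a) (nat_lit 0) (p (nat_lit 0x80000800078706860a) (nat_lit 0) (p (nat_lit 0x8806860782) (nat_lit 0) (p (nat_lit 0x786058702) (nat_lit 0) (p (nat_lit 0x8705850482) (nat_lit 0) (p (nat_lit 0x685048402) (nat_lit 0) (p (nat_lit 0x160014) (nat_lit 0) (p (nat_lit 0x60592) (nat_lit 0) (p (nat_lit 0x48512) (nat_lit 0) (p (nat_lit 0x50392) (nat_lit 0) (p (nat_lit 0x38312) (nat_lit 0) (p (nat_lit 0x40212) (nat_lit 0) (p (nat_lit 0x28192) (nat_lit 0) (p (nat_lit 0x30092) (nat_lit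 0) (p (nat_lit 0x18012) (nat_lit 0) pn))))))))))))))))))))))))) :=
  Cl.node (nat_lit 0x109) (nat_lit 2) (by decide +kernel) (ClAll.succ (ClAll.succ ClAll.zero s63) n18)

def n34 : Cl (O (nat_lit 3)) (R (nat_lit 6353))
    (p (nat_lit 0x109) (nat_lit 1) (p (nat_lit 0xc9) (nat_lit 1) (p (nat_lit 0x119) (nat_lit 1) (p (nat_lit 0xc1) (nat_lit 0) (p (nat_lit 0x81) (nat_lit 1) (p (nat_lit 0x41) (nat_lit 1) (p (nat_lit 0x8a0b09890a9a) (nat_lit 0) (p (nat_lit 0x98a89088a1a) (nat_lit 0) (p (nat_lit 0x890a0888079a) (nat_lit 0) (p (nat_lit 0x8898807871a) (nat_lit 0) (p (nat_lit 0x80000800080787088a) (nat_lit 0) (p (nat_lit 0x80000800078706860a) (nat_lit 0) (p (nat_lit 0x8806860782) (nat_lit 0) (p (nat_lit 0x786058702) (nat_lit 0) (p (nat_lit 0x8705850482) (nat_lit 0) (p (nat_lit 0x685048402) (nat_lit 0) (p (nat_lit 0x160014) (nat_lit 0) (p (nat_lit 0x60592) (nat_lit 0) (p (nat_lit 0x48512)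 (nat_lit 0) (p (nat_lit 0x50392) (nat_lit 0) (p (nat_lit 0x38312) (nat_lit 0) (p (nat_lit 0x40212) (nat_lit 0) (p (nat_lit 0x28192) (nat_lit 0) (p (nat_lit 0x30092) (nat_lit 0) (p (nat_lit 0x18012) (nat_lit 0) pn))))))))))))))))))))))))) :=
  Cl.node (nat_lit 0x200004) (nat_lit 2) (by decide +kernel) (ClAll.succ (ClAll.succ ClAll.zero s70) s71)

def n35 : Cl (O (nat_lit 3)) (R (nat_lit 6353))
    (p (nat_lit 0x101) (nat_lit 1) (p (nat_lit 0x119) (nat_lit 0) (p (nat_lit 0xd1) (nat_lit 0) (p (nat_lit 0x89) (nat_lit 0) (p (nat_lit 0x41) (nat_lit 0) (p (nat_lit 0x8a0b09890a9a) (nat_lit 0) (p (nat_lit 0x98a89088a1a) (nat_lit 0) (p (nat_lit 0x890a0888079a) (nat_lit 0) (p (nat_lit 0x8898807871a) (nat_lit 0) (p (nat_lit 0x80000800080787088a) (nat_lit 0) (p (nat_lit 0x80000800078706860a) (nat_lit 0) (p (nat_lit 0x8806860782) (nat_lit 0) (p (nat_lit 0x786058702) (nat_lit 0) (p (nat_lit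 0x8705850482) (nat_lit 0) (p (nat_lit 0x685048402) (nat_lit 0) (p (nat_lit 0x160014) (nat_lit 0) (p (nat_lit 0x60592) (nat_lit 0) (p (nat_lit 0x48512) (nat_lit 0) (p (nat_lit 0x50392) (nat_lit 0) (p (nat_lit 0x38312) (nat_lit 0) (p (nat_lit 0x40212) (nat_lit 0) (p (nat_lit 0x28192) (nat_lit 0) (p (nat_lit 0x30092) (nat_lit 0) (p (nat_lit 0x18012) (nat_lit 0) pn)))))))))))))))))))))))) :=
  Cl.node (nat_lit 0x81) (nat_lit 2) (by decide +kernel) (ClAll.succ (ClAll.succ ClAll.zero n19) n20)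

def n36 : Cl (O (nat_lit 3)) (R (nat_lit 6353))
    (p (nat_lit 0xc1) (nat_lit 0) (p (nat_lit 0x119) (nat_lit 1) (p (nat_lit 0xd1) (nat_lit 0) (p (nat_lit 0x89) (nat_lit 0) (p (nat_lit 0x41) (nat_lit 0) (p (nat_lit 0x8a0b09890a9a) (nat_lit 0) (p (nat_lit 0x98a89088a1a) (nat_lit 0) (p (nat_lit 0x890a0888079a) (nat_lit 0) (p (nat_lit 0x8898807871a) (nat_lit 0) (p (nat_lit 0x80000800080787088a) (nat_lit 0) (p (nat_lit 0x80000800078706860a) (nat_lit 0) (p (nat_lit 0x8806860782) (nat_lit 0) (p (nat_lit 0x786058702) (nat_lit 0) (p (nat_lit 0x8705850482) (nat_lit 0) (p (nat_lit 0x685048402) (nat_lit 0) (p (nat_lit 0x160014) (nat_lit 0) (p (nat_lit 0x60592) (nat_lit 0) (p (nat_lit 0x48512) (nat_lit 0) (p (nat_lit 0x50392) (nat_lit 0) (p (nat_lit 0x38312) (nat_lit 0) (p (nat_lit 0x40212) (nat_lit 0) (p (nat_lit 0x28192) (nat_lit 0) (p (nat_lit 0x30092) (nat_lit 0) (p (nat_lit 0x18012)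 (nat_lit 0) pn)))))))))))))))))))))))) :=
  Cl.node (nat_lit 0xc9) (nat_lit 2) (by decide +kernel) (ClAll.succ (ClAll.succ ClAll.zero s7) n21)

def n37 : Cl (O (nat_lit 3)) (R (nat_lit 6353))
    (p (nat_lit 0xc1) (nat_lit 1) (p (nat_lit 0x119) (nat_lit 1) (p (nat_lit 0xd1) (nat_lit 0) (p (nat_lit 0x89) (nat_lit 0) (p (nat_lit 0x41) (nat_lit 0) (p (nat_lit 0x8a0b09890a9a) (nat_lit 0) (p (nat_lit 0x98a89088a1a) (nat_lit 0) (p (nat_lit 0x890a0888079a) (nat_lit 0) (p (nat_lit 0x8898807871a) (nat_lit 0) (p (nat_lit 0x80000800080787088a) (nat_lit 0) (p (nat_lit 0x80000800078706860a) (nat_lit 0) (p (nat_lit 0x8806860782) (nat_lit 0) (p (nat_lit 0x786058702) (nat_lit 0) (p (nat_lit 0x8705850482) (nat_lit 0) (p (nat_lit 0x685048402) (nat_lit 0) (p (nat_lit 0x160014) (nat_lit 0) (p (nat_lit 0x60592) (nat_lit 0) (p (nat_lit 0x48512) (nat_lit 0) (p (nat_lit 0x50392) (nat_lit 0) (p (nat_lit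 0x38312) (nat_lit 0) (p (nat_lit 0x40212) (nat_lit 0) (p (nat_lit 0x28192) (nat_lit 0) (p (nat_lit 0x30092) (nat_lit 0) (p (nat_lit 0x18012) (nat_lit 0) pn)))))))))))))))))))))))) :=
  Cl.node (nat_lit 0x81) (nat_lit 2) (by decide +kernel) (ClAll.succ (ClAll.succ ClAll.zero n22) n23)

def n38 : Cl (O (nat_lit 3)) (R (nat_lit 6353))
    (p (nat_lit 0x101) (nat_lit 1) (p (nat_lit 0x111) (nat_lit 0) (p (nat_lit 0xd1) (nat_lit 1) (p (nat_lit 0x89) (nat_lit 0) (p (nat_lit 0x41) (nat_lit 0) (p (nat_lit 0x8a0b09890a9a) (nat_lit 0) (p (nat_lit 0x98a89088a1a) (nat_lit 0) (p (nat_lit 0x890a0888079a) (nat_lit 0) (p (nat_lit 0x8898807871a) (nat_lit 0) (p (nat_lit 0x80000800080787088a) (nat_lit 0) (p (nat_lit 0x80000800078706860a) (nat_lit 0) (p (nat_lit 0x8806860782) (nat_lit 0) (p (nat_lit 0x786058702) (nat_lit 0) (p (nat_lit 0x8705850482) (nat_lit 0) (p (nat_lit 0x685048402) (nat_lit 0)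 (p (nat_lit 0x160014) (nat_lit 0) (p (nat_lit 0x60592) (nat_lit 0) (p (nat_lit 0x48512) (nat_lit 0) (p (nat_lit 0x50392) (nat_lit 0) (p (nat_lit 0x38312) (nat_lit 0) (p (nat_lit 0x40212) (nat_lit 0) (p (nat_lit 0x28192) (nat_lit 0) (p (nat_lit 0x30092) (nat_lit 0) (p (nat_lit 0x18012) (nat_lit 0) pn)))))))))))))))))))))))) :=
  Cl.node (nat_lit 0x81) (nat_lit 2) (by decide +kernel) (ClAll.succ (ClAll.succ ClAll.zero s22) n24)

def n39 : Cl (O (nat_lit 3)) (R (nat_lit 6353))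
    (p (nat_lit 0xc1) (nat_lit 0) (p (nat_lit 0x119) (nat_lit 1) (p (nat_lit 0xc9) (nat_lit 0) (p (nat_lit 0x89) (nat_lit 1) (p (nat_lit 0x41) (nat_lit 0) (p (nat_lit 0x8a0b09890a9a) (nat_lit 0) (p (nat_lit 0x98a89088a1a) (nat_lit 0) (p (nat_lit 0x890a0888079a) (nat_lit 0) (p (nat_lit 0x8898807871a) (nat_lit 0) (p (nat_lit 0x80000800080787088a) (nat_lit 0) (p (nat_lit 0x80000800078706860a) (nat_lit 0) (p (nat_lit 0x8806860782) (nat_lit 0) (p (nat_lit 0x786058702) (nat_lit 0) (p (nat_lit 0x8705850482) (nat_lit 0) (p (nat_lit 0x685048402) (nat_lit 0) (p (nat_lit 0x160014) (nat_lit 0) (p (nat_lit 0x60592) (nat_lit 0) (p (nat_lit 0x48512) (nat_lit 0) (p (nat_lit 0x50392) (nat_lit 0) (p (nat_lit 0x38312) (nat_lit 0) (p (nat_lit 0x40212) (nat_lit 0) (p (nat_lit 0x28192) (nat_lit 0) (p (nat_lit 0x30092) (nat_lit 0) (p (nat_lit 0x18012) (nat_lit 0) pn)))))))))))))))))))))))) :=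
  Cl.node (nat_lit 0xd1) (nat_lit 2) (by decide +kernel) (ClAll.succ (ClAll.succ ClAll.zero s29) n25)

def n40 : Cl (O (nat_lit 3)) (R (nat_lit 6353))
    (p (nat_lit 0xc1) (nat_lit 1) (p (nat_lit 0x119) (nat_lit 1) (p (nat_lit 0xc9) (nat_lit 0) (p (nat_lit 0x89) (nat_lit 1) (p (nat_lit 0x41) (nat_lit 0) (p (nat_lit 0x8a0b09890a9a) (nat_lit 0) (p (nat_lit 0x98a89088a1a) (nat_lit 0) (p (nat_lit 0x890a0888079a) (nat_lit 0) (p (nat_lit 0x8898807871a) (nat_lit 0) (p (nat_lit 0x80000800080787088a) (nat_lit 0) (p (nat_lit 0x80000800078706860a) (nat_lit 0) (p (nat_lit 0x8806860782) (nat_lit 0) (p (nat_lit 0x786058702) (nat_lit 0) (p (nat_lit 0x8705850482) (nat_lit 0) (p (nat_lit 0x685048402) (nat_lit 0) (p (nat_lit 0x160014) (nat_lit 0) (p (nat_lit 0x60592) (nat_lit 0) (p (nat_lit 0x48512) (nat_lit 0) (p (nat_lit 0x50392) (nat_lit 0) (p (nat_lit 0x38312) (nat_lit 0) (p (nat_lit 0x40212)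 (nat_lit 0) (p (nat_lit 0x28192) (nat_lit 0) (p (nat_lit 0x30092) (nat_lit 0) (p (nat_lit 0x18012) (nat_lit 0) pn)))))))))))))))))))))))) :=
  Cl.node (nat_lit 0x101) (nat_lit 2) (by decide +kernel) (ClAll.succ (ClAll.succ ClAll.zero s33) n26)

def n41 : Cl (O (nat_lit 3)) (R (nat_lit 6353))
    (p (nat_lit 0x101) (nat_lit 0) (p (nat_lit 0x119) (nat_lit 0) (p (nat_lit 0xd1) (nat_lit 0) (p (nat_lit 0x81) (nat_lit 0) (p (nat_lit 0x41) (nat_lit 1) (p (nat_lit 0x8a0b09890a9a) (nat_lit 0) (p (nat_lit 0x98a89088a1a) (nat_lit 0) (p (nat_lit 0x890a0888079a) (nat_lit 0) (p (nat_lit 0x8898807871a) (nat_lit 0) (p (nat_lit 0x80000800080787088a) (nat_lit 0) (p (nat_lit 0x80000800078706860a) (nat_lit 0) (p (nat_lit 0x8806860782) (nat_lit 0) (p (nat_lit 0x786058702) (nat_lit 0) (p (nat_lit 0x8705850482) (nat_lit 0) (p (nat_lit 0x685048402) (nat_lit 0) (p (nat_lit 0x160014) (nat_lit 0) (p (nat_lit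 0x60592) (nat_lit 0) (p (nat_lit 0x48512) (nat_lit 0) (p (nat_lit 0x50392) (nat_lit 0) (p (nat_lit 0x38312) (nat_lit 0) (p (nat_lit 0x40212) (nat_lit 0) (p (nat_lit 0x28192) (nat_lit 0) (p (nat_lit 0x30092) (nat_lit 0) (p (nat_lit 0x18012) (nat_lit 0) pn)))))))))))))))))))))))) :=
  Cl.node (nat_lit 0x109) (nat_lit 2) (by decide +kernel) (ClAll.succ (ClAll.succ ClAll.zero s37) n27)

def n42 : Cl (O (nat_lit 3)) (R (nat_lit 6353))
    (p (nat_lit 0x101) (nat_lit 1) (p (nat_lit 0x119) (nat_lit 0) (p (nat_lit 0xd1) (nat_lit 0) (p (nat_lit 0x81) (nat_lit 0) (p (nat_lit 0x41) (nat_lit 1) (p (nat_lit 0x8a0b09890a9a) (nat_lit 0) (p (nat_lit 0x98a89088a1a) (nat_lit 0) (p (nat_lit 0x890a0888079a) (nat_lit 0) (p (nat_lit 0x8898807871a) (nat_lit 0) (p (nat_lit 0x80000800080787088a) (nat_lit 0) (p (nat_lit 0x80000800078706860a) (nat_lit 0) (p (nat_lit 0x8806860782) (nat_lit 0) (p (nat_lit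 0x786058702) (nat_lit 0) (p (nat_lit 0x8705850482) (nat_lit 0) (p (nat_lit 0x685048402) (nat_lit 0) (p (nat_lit 0x160014) (nat_lit 0) (p (nat_lit 0x60592) (nat_lit 0) (p (nat_lit 0x48512) (nat_lit 0) (p (nat_lit 0x50392) (nat_lit 0) (p (nat_lit 0x38312) (nat_lit 0) (p (nat_lit 0x40212) (nat_lit 0) (p (nat_lit 0x28192) (nat_lit 0) (p (nat_lit 0x30092) (nat_lit 0) (p (nat_lit 0x18012) (nat_lit 0) pn)))))))))))))))))))))))) :=
  Cl.node (nat_lit 0xc1) (nat_lit 2) (by decide +kernel) (ClAll.succ (ClAll.succ ClAll.zero n28) s42)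

def n43 : Cl (O (nat_lit 3)) (R (nat_lit 6353))
    (p (nat_lit 0xc1) (nat_lit 0) (p (nat_lit 0x119) (nat_lit 1) (p (nat_lit 0xd1) (nat_lit 0) (p (nat_lit 0x81) (nat_lit 0) (p (nat_lit 0x41) (nat_lit 1) (p (nat_lit 0x8a0b09890a9a) (nat_lit 0) (p (nat_lit 0x98a89088a1a) (nat_lit 0) (p (nat_lit 0x890a0888079a) (nat_lit 0) (p (nat_lit 0x8898807871a) (nat_lit 0) (p (nat_lit 0x80000800080787088a) (nat_lit 0) (p (nat_lit 0x80000800078706860a) (nat_lit 0) (p (nat_lit 0x8806860782) (nat_lit 0) (p (nat_lit 0x786058702) (nat_lit 0) (p (nat_lit 0x8705850482) (nat_lit 0) (p (nat_lit 0x685048402) (nat_lit 0) (p (nat_lit 0x160014) (nat_lit 0) (p (nat_lit 0x60592) (nat_lit 0) (p (nat_lit 0x48512) (nat_lit 0) (p (nat_lit 0x50392) (nat_lit 0) (p (nat_lit 0x38312) (nat_lit 0) (p (nat_lit 0x40212) (nat_lit 0) (p (nat_lit 0x28192) (nat_lit 0) (p (nat_lit 0x30092) (nat_lit 0) (p (nat_lit 0x18012)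 (nat_lit 0) pn)))))))))))))))))))))))) :=
  Cl.node (nat_lit 0xc9) (nat_lit 2) (by decide +kernel) (ClAll.succ (ClAll.succ ClAll.zero s43) n29)

def n44 : Cl (O (nat_lit 3)) (R (nat_lit 6353))
    (p (nat_lit 0xc1) (nat_lit 1) (p (nat_lit 0x119) (nat_lit 1) (p (nat_lit 0xd1) (nat_lit 0) (p (nat_lit 0x81) (nat_lit 0) (p (nat_lit 0x41) (nat_lit 1) (p (nat_lit 0x8a0b09890a9a) (nat_lit 0) (p (nat_lit 0x98a89088a1a) (nat_lit 0) (p (nat_lit 0x890a0888079a) (nat_lit 0) (p (nat_lit 0x8898807871a) (nat_lit 0) (p (nat_lit 0x80000800080787088a) (nat_lit 0) (p (nat_lit 0x80000800078706860a) (nat_lit 0) (p (nat_lit 0x8806860782) (nat_lit 0) (p (nat_lit 0x786058702) (nat_lit 0) (p (nat_lit 0x8705850482) (nat_lit 0) (p (nat_lit 0x685048402) (nat_lit 0) (p (nat_lit 0x160014) (nat_lit 0) (p (nat_lit 0x60592) (nat_lit 0) (p (nat_lit 0x48512) (nat_lit 0) (p (nat_lit 0x50392) (nat_lit 0) (p (nat_lit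 0x38312) (nat_lit 0) (p (nat_lit 0x40212) (nat_lit 0) (p (nat_lit 0x28192) (nat_lit 0) (p (nat_lit 0x30092) (nat_lit 0) (p (nat_lit 0x18012) (nat_lit 0) pn)))))))))))))))))))))))) :=
  Cl.node (nat_lit 0x101) (nat_lit 2) (by decide +kernel) (ClAll.succ (ClAll.succ ClAll.zero n30) n31)

def n45 : Cl (O (nat_lit 3)) (R (nat_lit 6353))
    (p (nat_lit 0x101) (nat_lit 0) (p (nat_lit 0x111) (nat_lit 0) (p (nat_lit 0xd1) (nat_lit 1) (p (nat_lit 0x81) (nat_lit 0) (p (nat_lit 0x41) (nat_lit 1) (p (nat_lit 0x8a0b09890a9a) (nat_lit 0) (p (nat_lit 0x98a89088a1a) (nat_lit 0) (p (nat_lit 0x890a0888079a) (nat_lit 0) (p (nat_lit 0x8898807871a) (nat_lit 0) (p (nat_lit 0x80000800080787088a) (nat_lit 0) (p (nat_lit 0x80000800078706860a) (nat_lit 0) (p (nat_lit 0x8806860782) (nat_lit 0) (p (nat_lit 0x786058702) (nat_lit 0) (p (nat_lit 0x8705850482) (nat_lit 0) (p (nat_lit 0x685048402) (nat_lit 0)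 (p (nat_lit 0x160014) (nat_lit 0) (p (nat_lit 0x60592) (nat_lit 0) (p (nat_lit 0x48512) (nat_lit 0) (p (nat_lit 0x50392) (nat_lit 0) (p (nat_lit 0x38312) (nat_lit 0) (p (nat_lit 0x40212) (nat_lit 0) (p (nat_lit 0x28192) (nat_lit 0) (p (nat_lit 0x30092) (nat_lit 0) (p (nat_lit 0x18012) (nat_lit 0) pn)))))))))))))))))))))))) :=
  Cl.node (nat_lit 0x109) (nat_lit 2) (by decide +kernel) (ClAll.succ (ClAll.succ ClAll.zero s56) n32)

def n46 : Cl (O (nat_lit 3)) (R (nat_lit 6353))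
    (p (nat_lit 0x89) (nat_lit 1) (p (nat_lit 0x111) (nat_lit 1) (p (nat_lit 0xd1) (nat_lit 1) (p (nat_lit 0x81) (nat_lit 0) (p (nat_lit 0x41) (nat_lit 1) (p (nat_lit 0x8a0b09890a9a) (nat_lit 0) (p (nat_lit 0x98a89088a1a) (nat_lit 0) (p (nat_lit 0x890a0888079a) (nat_lit 0) (p (nat_lit 0x8898807871a) (nat_lit 0) (p (nat_lit 0x80000800080787088a) (nat_lit 0) (p (nat_lit 0x80000800078706860a) (nat_lit 0) (p (nat_lit 0x8806860782) (nat_lit 0) (p (nat_lit 0x786058702) (nat_lit 0) (p (nat_lit 0x8705850482) (nat_lit 0) (p (nat_lit 0x685048402) (nat_lit 0) (p (nat_lit 0x160014) (nat_lit 0) (p (nat_lit 0x60592) (nat_lit 0) (p (nat_lit 0x48512) (nat_lit 0) (p (nat_lit 0x50392) (nat_lit 0) (p (nat_lit 0x38312) (nat_lit 0) (p (nat_lit 0x40212) (nat_lit 0) (p (nat_lit 0x28192) (nat_lit 0) (p (nat_lit 0x30092) (nat_lit 0) (p (nat_lit 0x18012) (nat_lit 0) pn)))))))))))))))))))))))) :=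
  Cl.node (nat_lit 0xc9) (nat_lit 2) (by decide +kernel) (ClAll.succ (ClAll.succ ClAll.zero s62) n33)

def n47 : Cl (O (nat_lit 3)) (R (nat_lit 6353))
    (p (nat_lit 0xc9) (nat_lit 0) (p (nat_lit 0x119) (nat_lit 1) (p (nat_lit 0xc1) (nat_lit 0) (p (nat_lit 0x81) (nat_lit 1) (p (nat_lit 0x41) (nat_lit 1) (p (nat_lit 0x8a0b09890a9a) (nat_lit 0) (p (nat_lit 0x98a89088a1a) (nat_lit 0) (p (nat_lit 0x890a0888079a) (nat_lit 0) (p (nat_lit 0x8898807871a) (nat_lit 0) (p (nat_lit 0x80000800080787088a) (nat_lit 0) (p (nat_lit 0x80000800078706860a) (nat_lit 0) (p (nat_lit 0x8806860782) (nat_lit 0) (p (nat_lit 0x786058702) (nat_lit 0) (p (nat_lit 0x8705850482) (nat_lit 0) (p (nat_lit 0x685048402) (nat_lit 0) (p (nat_lit 0x160014) (nat_lit 0) (p (nat_lit 0x60592) (nat_lit 0) (p (nat_lit 0x48512) (nat_lit 0) (p (nat_lit 0x50392) (nat_lit 0) (p (nat_lit 0x38312) (nat_lit 0) (p (nat_lit 0x40212)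 (nat_lit 0) (p (nat_lit 0x28192) (nat_lit 0) (p (nat_lit 0x30092) (nat_lit 0) (p (nat_lit 0x18012) (nat_lit 0) pn)))))))))))))))))))))))) :=
  Cl.node (nat_lit 0xd1) (nat_lit 2) (by decide +kernel) (ClAll.succ (ClAll.succ ClAll.zero s67) s68)

def n48 : Cl (O (nat_lit 3)) (R (nat_lit 6353))
    (p (nat_lit 0xc9) (nat_lit 1) (p (nat_lit 0x119) (nat_lit 1) (p (nat_lit 0xc1) (nat_lit 0) (p (nat_lit 0x81) (nat_lit 1) (p (nat_lit 0x41) (nat_lit 1) (p (nat_lit 0x8a0b09890a9a) (nat_lit 0) (p (nat_lit 0x98a89088a1a) (nat_lit 0) (p (nat_lit 0x890a0888079a) (nat_lit 0) (p (nat_lit 0x8898807871a) (nat_lit 0) (p (nat_lit 0x80000800080787088a) (nat_lit 0) (p (nat_lit 0x80000800078706860a) (nat_lit 0) (p (nat_lit 0x8806860782) (nat_lit 0) (p (nat_lit 0x786058702) (nat_lit 0) (p (nat_lit 0x8705850482) (nat_lit 0) (p (nat_lit 0x685048402) (nat_lit 0) (p (nat_lit 0x160014) (nat_lit 0) (p (nat_lit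 0x60592) (nat_lit 0) (p (nat_lit 0x48512) (nat_lit 0) (p (nat_lit 0x50392) (nat_lit 0) (p (nat_lit 0x38312) (nat_lit 0) (p (nat_lit 0x40212) (nat_lit 0) (p (nat_lit 0x28192) (nat_lit 0) (p (nat_lit 0x30092) (nat_lit 0) (p (nat_lit 0x18012) (nat_lit 0) pn)))))))))))))))))))))))) :=
  Cl.node (nat_lit 0x109) (nat_lit 2) (by decide +kernel) (ClAll.succ (ClAll.succ ClAll.zero s69) n34)

def n49 : Cl (O (nat_lit 3)) (R (nat_lit 6353))
    (p (nat_lit 0x119) (nat_lit 0) (p (nat_lit 0xd1) (nat_lit 0) (p (nat_lit 0x89) (nat_lit 0) (p (nat_lit 0x41) (nat_lit 0) (p (nat_lit 0x8a0b09890a9a) (nat_lit 0) (p (nat_lit 0x98a89088a1a) (nat_lit 0) (p (nat_lit 0x890a0888079a) (nat_lit 0) (p (nat_lit 0x8898807871a) (nat_lit 0) (p (nat_lit 0x80000800080787088a) (nat_lit 0) (p (nat_lit 0x80000800078706860a) (nat_lit 0) (p (nat_lit 0x8806860782) (nat_lit 0) (p (nat_lit 0x786058702) (nat_lit 0) (p (nat_lit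 0x8705850482) (nat_lit 0) (p (nat_lit 0x685048402) (nat_lit 0) (p (nat_lit 0x160014) (nat_lit 0) (p (nat_lit 0x60592) (nat_lit 0) (p (nat_lit 0x48512) (nat_lit 0) (p (nat_lit 0x50392) (nat_lit 0) (p (nat_lit 0x38312) (nat_lit 0) (p (nat_lit 0x40212) (nat_lit 0) (p (nat_lit 0x28192) (nat_lit 0) (p (nat_lit 0x30092) (nat_lit 0) (p (nat_lit 0x18012) (nat_lit 0) pn))))))))))))))))))))))) :=
  Cl.node (nat_lit 0x101) (nat_lit 2) (by decide +kernel) (ClAll.succ (ClAll.succ ClAll.zero s0) n35)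

def n50 : Cl (O (nat_lit 3)) (R (nat_lit 6353))
    (p (nat_lit 0x119) (nat_lit 1) (p (nat_lit 0xd1) (nat_lit 0) (p (nat_lit 0x89) (nat_lit 0) (p (nat_lit 0x41) (nat_lit 0) (p (nat_lit 0x8a0b09890a9a) (nat_lit 0) (p (nat_lit 0x98a89088a1a) (nat_lit 0) (p (nat_lit 0x890a0888079a) (nat_lit 0) (p (nat_lit 0x8898807871a) (nat_lit 0) (p (nat_lit 0x80000800080787088a) (nat_lit 0) (p (nat_lit 0x80000800078706860a) (nat_lit 0) (p (nat_lit 0x8806860782) (nat_lit 0) (p (nat_lit 0x786058702) (nat_lit 0) (p (nat_lit 0x8705850482) (nat_lit 0) (p (nat_lit 0x685048402) (nat_lit 0) (p (nat_lit 0x160014) (nat_lit 0) (p (nat_lit 0x60592) (nat_lit 0) (p (nat_lit 0x48512) (nat_lit 0) (p (nat_lit 0x50392) (nat_lit 0) (p (nat_lit 0x38312) (nat_lit 0) (p (nat_lit 0x40212) (nat_lit 0) (p (nat_lit 0x28192) (nat_lit 0) (p (nat_lit 0x30092) (nat_lit 0) (p (nat_lit 0x18012) (nat_lit 0) pn)))))))))))))))))))))))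 :=
  Cl.node (nat_lit 0xc1) (nat_lit 2) (by decide +kernel) (ClAll.succ (ClAll.succ ClAll.zero n36) n37)

def n51 : Cl (O (nat_lit 3)) (R (nat_lit 6353))
    (p (nat_lit 0x111) (nat_lit 0) (p (nat_lit 0xd1) (nat_lit 1) (p (nat_lit 0x89) (nat_lit 0) (p (nat_lit 0x41) (nat_lit 0) (p (nat_lit 0x8a0b09890a9a) (nat_lit 0) (p (nat_lit 0x98a89088a1a) (nat_lit 0) (p (nat_lit 0x890a0888079a) (nat_lit 0) (p (nat_lit 0x8898807871a) (nat_lit 0) (p (nat_lit 0x80000800080787088a) (nat_lit 0) (p (nat_lit 0x80000800078706860a) (nat_lit 0) (p (nat_lit 0x8806860782) (nat_lit 0) (p (nat_lit 0x786058702) (nat_lit 0) (p (nat_lit 0x8705850482) (nat_lit 0) (p (nat_lit 0x685048402) (nat_lit 0) (p (nat_lit 0x160014) (nat_lit 0) (p (nat_lit 0x60592) (nat_lit 0) (p (nat_lit 0x48512) (nat_lit 0) (p (nat_lit 0x50392) (nat_lit 0) (p (nat_lit 0x38312) (nat_lit 0) (p (nat_lit 0x40212) (nat_lit 0) (p (nat_lit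 0x28192) (nat_lit 0) (p (nat_lit 0x30092) (nat_lit 0) (p (nat_lit 0x18012) (nat_lit 0) pn))))))))))))))))))))))) :=
  Cl.node (nat_lit 0x101) (nat_lit 2) (by decide +kernel) (ClAll.succ (ClAll.succ ClAll.zero s21) n38)

def n52 : Cl (O (nat_lit 3)) (R (nat_lit 6353))
    (p (nat_lit 0x119) (nat_lit 0) (p (nat_lit 0xc9) (nat_lit 0) (p (nat_lit 0x89) (nat_lit 1) (p (nat_lit 0x41) (nat_lit 0) (p (nat_lit 0x8a0b09890a9a) (nat_lit 0) (p (nat_lit 0x98a89088a1a) (nat_lit 0) (p (nat_lit 0x890a0888079a) (nat_lit 0) (p (nat_lit 0x8898807871a) (nat_lit 0) (p (nat_lit 0x80000800080787088a) (nat_lit 0) (p (nat_lit 0x80000800078706860a) (nat_lit 0) (p (nat_lit 0x8806860782) (nat_lit 0) (p (nat_lit 0x786058702) (nat_lit 0) (p (nat_lit 0x8705850482) (nat_lit 0) (p (nat_lit 0x685048402) (nat_lit 0) (p (nat_lit 0x160014) (nat_lit 0) (p (nat_lit 0x60592) (nat_lit 0) (p (nat_lit 0x48512) (nat_lit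 0) (p (nat_lit 0x50392) (nat_lit 0) (p (nat_lit 0x38312) (nat_lit 0) (p (nat_lit 0x40212) (nat_lit 0) (p (nat_lit 0x28192) (nat_lit 0) (p (nat_lit 0x30092) (nat_lit 0) (p (nat_lit 0x18012) (nat_lit 0) pn))))))))))))))))))))))) :=
  Cl.node (nat_lit 0x101) (nat_lit 2) (by decide +kernel) (ClAll.succ (ClAll.succ ClAll.zero s27) s28)

def n53 : Cl (O (nat_lit 3)) (R (nat_lit 6353))
    (p (nat_lit 0x119) (nat_lit 1) (p (nat_lit 0xc9) (nat_lit 0) (p (nat_lit 0x89) (nat_lit 1) (p (nat_lit 0x41) (nat_lit 0) (p (nat_lit 0x8a0b09890a9a) (nat_lit 0) (p (nat_lit 0x98a89088a1a) (nat_lit 0) (p (nat_lit 0x890a0888079a) (nat_lit 0) (p (nat_lit 0x8898807871a) (nat_lit 0) (p (nat_lit 0x80000800080787088a) (nat_lit 0) (p (nat_lit 0x80000800078706860a) (nat_lit 0) (p (nat_lit 0x8806860782) (nat_lit 0) (p (nat_lit 0x786058702) (nat_lit 0) (p (nat_lit 0x8705850482) (nat_lit 0) (p (nat_lit 0x685048402)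 (nat_lit 0) (p (nat_lit 0x160014) (nat_lit 0) (p (nat_lit 0x60592) (nat_lit 0) (p (nat_lit 0x48512) (nat_lit 0) (p (nat_lit 0x50392) (nat_lit 0) (p (nat_lit 0x38312) (nat_lit 0) (p (nat_lit 0x40212) (nat_lit 0) (p (nat_lit 0x28192) (nat_lit 0) (p (nat_lit 0x30092) (nat_lit 0) (p (nat_lit 0x18012) (nat_lit 0) pn))))))))))))))))))))))) :=
  Cl.node (nat_lit 0xc1) (nat_lit 2) (by decide +kernel) (ClAll.succ (ClAll.succ ClAll.zero n39) n40)

def n54 : Cl (O (nat_lit 3)) (R (nat_lit 6353))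
    (p (nat_lit 0x119) (nat_lit 0) (p (nat_lit 0xd1) (nat_lit 0) (p (nat_lit 0x81) (nat_lit 0) (p (nat_lit 0x41) (nat_lit 1) (p (nat_lit 0x8a0b09890a9a) (nat_lit 0) (p (nat_lit 0x98a89088a1a) (nat_lit 0) (p (nat_lit 0x890a0888079a) (nat_lit 0) (p (nat_lit 0x8898807871a) (nat_lit 0) (p (nat_lit 0x80000800080787088a) (nat_lit 0) (p (nat_lit 0x80000800078706860a) (nat_lit 0) (p (nat_lit 0x8806860782) (nat_lit 0) (p (nat_lit 0x786058702) (nat_lit 0) (p (nat_lit 0x8705850482) (nat_lit 0) (p (nat_lit 0x685048402) (nat_lit 0) (p (nat_lit 0x160014) (nat_lit 0) (p (nat_lit 0x60592) (nat_lit 0) (p (nat_lit 0x48512) (nat_lit 0) (p (nat_lit 0x50392) (nat_lit 0) (p (nat_lit 0x38312) (nat_lit 0) (p (nat_lit 0x40212) (nat_lit 0) (p (nat_lit 0x28192) (nat_lit 0) (p (nat_lit 0x30092) (nat_lit 0) (p (nat_lit 0x18012) (nat_lit 0) pn))))))))))))))))))))))) :=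
  Cl.node (nat_lit 0x101) (nat_lit 2) (by decide +kernel) (ClAll.succ (ClAll.succ ClAll.zero n41) n42)

def n55 : Cl (O (nat_lit 3)) (R (nat_lit 6353))
    (p (nat_lit 0x119) (nat_lit 1) (p (nat_lit 0xd1) (nat_lit 0) (p (nat_lit 0x81) (nat_lit 0) (p (nat_lit 0x41) (nat_lit 1) (p (nat_lit 0x8a0b09890a9a) (nat_lit 0) (p (nat_lit 0x98a89088a1a) (nat_lit 0) (p (nat_lit 0x890a0888079a) (nat_lit 0) (p (nat_lit 0x8898807871a) (nat_lit 0) (p (nat_lit 0x80000800080787088a) (nat_lit 0) (p (nat_lit 0x80000800078706860a) (nat_lit 0) (p (nat_lit 0x8806860782) (nat_lit 0) (p (nat_lit 0x786058702) (nat_lit 0) (p (nat_lit 0x8705850482) (nat_lit 0) (p (nat_lit 0x685048402) (nat_lit 0) (p (nat_lit 0x160014) (nat_lit 0) (p (nat_lit 0x60592) (nat_lit 0) (p (nat_lit 0x48512) (nat_lit 0) (p (nat_lit 0x50392) (nat_lit 0) (p (nat_lit 0x38312) (nat_lit 0) (p (nat_lit 0x40212) (nat_lit 0) (p (nat_lit 0x28192)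 (nat_lit 0) (p (nat_lit 0x30092) (nat_lit 0) (p (nat_lit 0x18012) (nat_lit 0) pn))))))))))))))))))))))) :=
  Cl.node (nat_lit 0xc1) (nat_lit 2) (by decide +kernel) (ClAll.succ (ClAll.succ ClAll.zero n43) n44)

def n56 : Cl (O (nat_lit 3)) (R (nat_lit 6353))
    (p (nat_lit 0x111) (nat_lit 0) (p (nat_lit 0xd1) (nat_lit 1) (p (nat_lit 0x81) (nat_lit 0) (p (nat_lit 0x41) (nat_lit 1) (p (nat_lit 0x8a0b09890a9a) (nat_lit 0) (p (nat_lit 0x98a89088a1a) (nat_lit 0) (p (nat_lit 0x890a0888079a) (nat_lit 0) (p (nat_lit 0x8898807871a) (nat_lit 0) (p (nat_lit 0x80000800080787088a) (nat_lit 0) (p (nat_lit 0x80000800078706860a) (nat_lit 0) (p (nat_lit 0x8806860782) (nat_lit 0) (p (nat_lit 0x786058702) (nat_lit 0) (p (nat_lit 0x8705850482) (nat_lit 0) (p (nat_lit 0x685048402) (nat_lit 0) (p (nat_lit 0x160014) (nat_lit 0) (p (nat_lit 0x60592) (nat_lit 0) (p (nat_lit 0x48512) (nat_lit 0) (p (nat_lit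 0x50392) (nat_lit 0) (p (nat_lit 0x38312) (nat_lit 0) (p (nat_lit 0x40212) (nat_lit 0) (p (nat_lit 0x28192) (nat_lit 0) (p (nat_lit 0x30092) (nat_lit 0) (p (nat_lit 0x18012) (nat_lit 0) pn))))))))))))))))))))))) :=
  Cl.node (nat_lit 0x101) (nat_lit 2) (by decide +kernel) (ClAll.succ (ClAll.succ ClAll.zero n45) s60)

def n57 : Cl (O (nat_lit 3)) (R (nat_lit 6353))
    (p (nat_lit 0x111) (nat_lit 1) (p (nat_lit 0xd1) (nat_lit 1) (p (nat_lit 0x81) (nat_lit 0) (p (nat_lit 0x41) (nat_lit 1) (p (nat_lit 0x8a0b09890a9a) (nat_lit 0) (p (nat_lit 0x98a89088a1a) (nat_lit 0) (p (nat_lit 0x890a0888079a) (nat_lit 0) (p (nat_lit 0x8898807871a) (nat_lit 0) (p (nat_lit 0x80000800080787088a) (nat_lit 0) (p (nat_lit 0x80000800078706860a) (nat_lit 0) (p (nat_lit 0x8806860782) (nat_lit 0) (p (nat_lit 0x786058702) (nat_lit 0) (p (nat_lit 0x8705850482) (nat_lit 0) (p (nat_lit 0x685048402) (nat_lit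 0) (p (nat_lit 0x160014) (nat_lit 0) (p (nat_lit 0x60592) (nat_lit 0) (p (nat_lit 0x48512) (nat_lit 0) (p (nat_lit 0x50392) (nat_lit 0) (p (nat_lit 0x38312) (nat_lit 0) (p (nat_lit 0x40212) (nat_lit 0) (p (nat_lit 0x28192) (nat_lit 0) (p (nat_lit 0x30092) (nat_lit 0) (p (nat_lit 0x18012) (nat_lit 0) pn))))))))))))))))))))))) :=
  Cl.node (nat_lit 0x89) (nat_lit 2) (by decide +kernel) (ClAll.succ (ClAll.succ ClAll.zero s61) n46)

def n58 : Cl (O (nat_lit 3)) (R (nat_lit 6353))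
    (p (nat_lit 0x119) (nat_lit 1) (p (nat_lit 0xc1) (nat_lit 0) (p (nat_lit 0x81) (nat_lit 1) (p (nat_lit 0x41) (nat_lit 1) (p (nat_lit 0x8a0b09890a9a) (nat_lit 0) (p (nat_lit 0x98a89088a1a) (nat_lit 0) (p (nat_lit 0x890a0888079a) (nat_lit 0) (p (nat_lit 0x8898807871a) (nat_lit 0) (p (nat_lit 0x80000800080787088a) (nat_lit 0) (p (nat_lit 0x80000800078706860a) (nat_lit 0) (p (nat_lit 0x8806860782) (nat_lit 0) (p (nat_lit 0x786058702) (nat_lit 0) (p (nat_lit 0x8705850482) (nat_lit 0) (p (nat_lit 0x685048402) (nat_lit 0) (p (nat_lit 0x160014) (nat_lit 0) (p (nat_lit 0x60592) (nat_lit 0) (p (nat_lit 0x48512) (nat_lit 0) (p (nat_lit 0x50392) (nat_lit 0) (p (nat_lit 0x38312) (nat_lit 0) (p (nat_lit 0x40212) (nat_lit 0) (p (nat_lit 0x28192) (nat_lit 0) (p (nat_lit 0x30092) (nat_lit 0) (p (nat_lit 0x18012) (nat_lit 0) pn))))))))))))))))))))))) :=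
  Cl.node (nat_lit 0xc9) (nat_lit 2) (by decide +kernel) (ClAll.succ (ClAll.succ ClAll.zero n47) n48)

def n59 : Cl (O (nat_lit 3)) (R (nat_lit 6353))
    (p (nat_lit 0xd1) (nat_lit 0) (p (nat_lit 0x89) (nat_lit 0) (p (nat_lit 0x41) (nat_lit 0) (p (nat_lit 0x8a0b09890a9a) (nat_lit 0) (p (nat_lit 0x98a89088a1a) (nat_lit 0) (p (nat_lit 0x890a0888079a) (nat_lit 0) (p (nat_lit 0x8898807871a) (nat_lit 0) (p (nat_lit 0x80000800080787088a) (nat_lit 0) (p (nat_lit 0x80000800078706860a) (nat_lit 0) (p (nat_lit 0x8806860782) (nat_lit 0) (p (nat_lit 0x786058702) (nat_lit 0) (p (nat_lit 0x8705850482) (nat_lit 0) (p (nat_lit 0x685048402) (nat_lit 0) (p (nat_lit 0x160014) (nat_lit 0) (p (nat_lit 0x60592) (nat_lit 0) (p (nat_lit 0x48512) (nat_lit 0) (p (nat_lit 0x50392) (nat_lit 0) (p (nat_lit 0x38312) (nat_lit 0) (p (nat_lit 0x40212) (nat_lit 0) (p (nat_lit 0x28192) (nat_lit 0) (p (nat_lit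 0x30092) (nat_lit 0) (p (nat_lit 0x18012) (nat_lit 0) pn)))))))))))))))))))))) :=
  Cl.node (nat_lit 0x119) (nat_lit 2) (by decide +kernel) (ClAll.succ (ClAll.succ ClAll.zero n49) n50)

def n60 : Cl (O (nat_lit 3)) (R (nat_lit 6353))
    (p (nat_lit 0xd1) (nat_lit 1) (p (nat_lit 0x89) (nat_lit 0) (p (nat_lit 0x41) (nat_lit 0) (p (nat_lit 0x8a0b09890a9a) (nat_lit 0) (p (nat_lit 0x98a89088a1a) (nat_lit 0) (p (nat_lit 0x890a0888079a) (nat_lit 0) (p (nat_lit 0x8898807871a) (nat_lit 0) (p (nat_lit 0x80000800080787088a) (nat_lit 0) (p (nat_lit 0x80000800078706860a) (nat_lit 0) (p (nat_lit 0x8806860782) (nat_lit 0) (p (nat_lit 0x786058702) (nat_lit 0) (p (nat_lit 0x8705850482) (nat_lit 0) (p (nat_lit 0x685048402) (nat_lit 0) (p (nat_lit 0x160014) (nat_lit 0) (p (nat_lit 0x60592) (nat_lit 0) (p (nat_lit 0x48512) (nat_lit 0) (p (nat_lit 0x50392) (nat_lit 0) (p (nat_lit 0x38312) (nat_lit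 0) (p (nat_lit 0x40212) (nat_lit 0) (p (nat_lit 0x28192) (nat_lit 0) (p (nat_lit 0x30092) (nat_lit 0) (p (nat_lit 0x18012) (nat_lit 0) pn)))))))))))))))))))))) :=
  Cl.node (nat_lit 0x111) (nat_lit 2) (by decide +kernel) (ClAll.succ (ClAll.succ ClAll.zero n51) s26)

def n61 : Cl (O (nat_lit 3)) (R (nat_lit 6353))
    (p (nat_lit 0xc9) (nat_lit 0) (p (nat_lit 0x89) (nat_lit 1) (p (nat_lit 0x41) (nat_lit 0) (p (nat_lit 0x8a0b09890a9a) (nat_lit 0) (p (nat_lit 0x98a89088a1a) (nat_lit 0) (p (nat_lit 0x890a0888079a) (nat_lit 0) (p (nat_lit 0x8898807871a) (nat_lit 0) (p (nat_lit 0x80000800080787088a) (nat_lit 0) (p (nat_lit 0x80000800078706860a) (nat_lit 0) (p (nat_lit 0x8806860782) (nat_lit 0) (p (nat_lit 0x786058702) (nat_lit 0) (p (nat_lit 0x8705850482) (nat_lit 0) (p (nat_lit 0x685048402) (nat_lit 0) (p (nat_lit 0x160014) (nat_lit 0) (p (nat_lit 0x60592) (nat_lit 0) (p (nat_lit 0x48512)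 (nat_lit 0) (p (nat_lit 0x50392) (nat_lit 0) (p (nat_lit 0x38312) (nat_lit 0) (p (nat_lit 0x40212) (nat_lit 0) (p (nat_lit 0x28192) (nat_lit 0) (p (nat_lit 0x30092) (nat_lit 0) (p (nat_lit 0x18012) (nat_lit 0) pn)))))))))))))))))))))) :=
  Cl.node (nat_lit 0x119) (nat_lit 2) (by decide +kernel) (ClAll.succ (ClAll.succ ClAll.zero n52) n53)

def n62 : Cl (O (nat_lit 3)) (R (nat_lit 6353))
    (p (nat_lit 0xd1) (nat_lit 0) (p (nat_lit 0x81) (nat_lit 0) (p (nat_lit 0x41) (nat_lit 1) (p (nat_lit 0x8a0b09890a9a) (nat_lit 0) (p (nat_lit 0x98a89088a1a) (nat_lit 0) (p (nat_lit 0x890a0888079a) (nat_lit 0) (p (nat_lit 0x8898807871a) (nat_lit 0) (p (nat_lit 0x80000800080787088a) (nat_lit 0) (p (nat_lit 0x80000800078706860a) (nat_lit 0) (p (nat_lit 0x8806860782) (nat_lit 0) (p (nat_lit 0x786058702) (nat_lit 0) (p (nat_lit 0x8705850482) (nat_lit 0) (p (nat_lit 0x685048402) (nat_lit 0) (p (nat_lit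 0x160014) (nat_lit 0) (p (nat_lit 0x60592) (nat_lit 0) (p (nat_lit 0x48512) (nat_lit 0) (p (nat_lit 0x50392) (nat_lit 0) (p (nat_lit 0x38312) (nat_lit 0) (p (nat_lit 0x40212) (nat_lit 0) (p (nat_lit 0x28192) (nat_lit 0) (p (nat_lit 0x30092) (nat_lit 0) (p (nat_lit 0x18012) (nat_lit 0) pn)))))))))))))))))))))) :=
  Cl.node (nat_lit 0x119) (nat_lit 2) (by decide +kernel) (ClAll.succ (ClAll.succ ClAll.zero n54) n55)

def n63 : Cl (O (nat_lit 3)) (R (nat_lit 6353))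
    (p (nat_lit 0xd1) (nat_lit 1) (p (nat_lit 0x81) (nat_lit 0) (p (nat_lit 0x41) (nat_lit 1) (p (nat_lit 0x8a0b09890a9a) (nat_lit 0) (p (nat_lit 0x98a89088a1a) (nat_lit 0) (p (nat_lit 0x890a0888079a) (nat_lit 0) (p (nat_lit 0x8898807871a) (nat_lit 0) (p (nat_lit 0x80000800080787088a) (nat_lit 0) (p (nat_lit 0x80000800078706860a) (nat_lit 0) (p (nat_lit 0x8806860782) (nat_lit 0) (p (nat_lit 0x786058702) (nat_lit 0) (p (nat_lit 0x8705850482) (nat_lit 0) (p (nat_lit 0x685048402) (nat_lit 0) (p (nat_lit 0x160014) (nat_lit 0) (p (nat_lit 0x60592) (nat_lit 0) (p (nat_lit 0x48512) (nat_lit 0) (p (nat_lit 0x50392) (nat_lit 0) (p (nat_lit 0x38312) (nat_lit 0) (p (nat_lit 0x40212) (nat_lit 0) (p (nat_lit 0x28192) (nat_lit 0) (p (nat_lit 0x30092) (nat_lit 0) (p (nat_lit 0x18012) (nat_lit 0) pn)))))))))))))))))))))) :=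
  Cl.node (nat_lit 0x111) (nat_lit 2) (by decide +kernel) (ClAll.succ (ClAll.succ ClAll.zero n56) n57)

def n64 : Cl (O (nat_lit 3)) (R (nat_lit 6353))
    (p (nat_lit 0xc1) (nat_lit 0) (p (nat_lit 0x81) (nat_lit 1) (p (nat_lit 0x41) (nat_lit 1) (p (nat_lit 0x8a0b09890a9a) (nat_lit 0) (p (nat_lit 0x98a89088a1a) (nat_lit 0) (p (nat_lit 0x890a0888079a) (nat_lit 0) (p (nat_lit 0x8898807871a) (nat_lit 0) (p (nat_lit 0x80000800080787088a) (nat_lit 0) (p (nat_lit 0x80000800078706860a) (nat_lit 0) (p (nat_lit 0x8806860782) (nat_lit 0) (p (nat_lit 0x786058702) (nat_lit 0) (p (nat_lit 0x8705850482) (nat_lit 0) (p (nat_lit 0x685048402) (nat_lit 0) (p (nat_lit 0x160014) (nat_lit 0) (p (nat_lit 0x60592) (nat_lit 0) (p (nat_lit 0x48512) (nat_lit 0) (p (nat_lit 0x50392) (nat_lit 0) (p (nat_lit 0x38312) (nat_lit 0) (p (nat_lit 0x40212) (nat_lit 0) (p (nat_lit 0x28192) (nat_lit 0) (p (nat_lit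 0x30092) (nat_lit 0) (p (nat_lit 0x18012) (nat_lit 0) pn)))))))))))))))))))))) :=
  Cl.node (nat_lit 0x119) (nat_lit 2) (by decide +kernel) (ClAll.succ (ClAll.succ ClAll.zero s66) n58)

def n65 : Cl (O (nat_lit 3)) (R (nat_lit 6353))
    (p (nat_lit 0x89) (nat_lit 0) (p (nat_lit 0x41) (nat_lit 0) (p (nat_lit 0x8a0b09890a9a) (nat_lit 0) (p (nat_lit 0x98a89088a1a) (nat_lit 0) (p (nat_lit 0x890a0888079a) (nat_lit 0) (p (nat_lit 0x8898807871a) (nat_lit 0) (p (nat_lit 0x80000800080787088a) (nat_lit 0) (p (nat_lit 0x80000800078706860a) (nat_lit 0) (p (nat_lit 0x8806860782) (nat_lit 0) (p (nat_lit 0x786058702) (nat_lit 0) (p (nat_lit 0x8705850482) (nat_lit 0) (p (nat_lit 0x685048402) (nat_lit 0) (p (nat_lit 0x160014) (nat_lit 0) (p (nat_lit 0x60592) (nat_lit 0) (p (nat_lit 0x48512) (nat_lit 0) (p (nat_lit 0x50392) (nat_lit 0) (p (nat_lit 0x38312) (nat_lit 0) (p (nat_lit 0x40212) (nat_lit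 0) (p (nat_lit 0x28192) (nat_lit 0) (p (nat_lit 0x30092) (nat_lit 0) (p (nat_lit 0x18012) (nat_lit 0) pn))))))))))))))))))))) :=
  Cl.node (nat_lit 0xd1) (nat_lit 2) (by decide +kernel) (ClAll.succ (ClAll.succ ClAll.zero n59) n60)

def n66 : Cl (O (nat_lit 3)) (R (nat_lit 6353))
    (p (nat_lit 0x89) (nat_lit 1) (p (nat_lit 0x41) (nat_lit 0) (p (nat_lit 0x8a0b09890a9a) (nat_lit 0) (p (nat_lit 0x98a89088a1a) (nat_lit 0) (p (nat_lit 0x890a0888079a) (nat_lit 0) (p (nat_lit 0x8898807871a) (nat_lit 0) (p (nat_lit 0x80000800080787088a) (nat_lit 0) (p (nat_lit 0x80000800078706860a) (nat_lit 0) (p (nat_lit 0x8806860782) (nat_lit 0) (p (nat_lit 0x786058702) (nat_lit 0) (p (nat_lit 0x8705850482) (nat_lit 0) (p (nat_lit 0x685048402) (nat_lit 0) (p (nat_lit 0x160014) (nat_lit 0) (p (nat_lit 0x60592) (nat_lit 0) (p (nat_lit 0x48512) (nat_lit 0) (p (nat_lit 0x50392) (nat_lit 0) (p (nat_lit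 0x38312) (nat_lit 0) (p (nat_lit 0x40212) (nat_lit 0) (p (nat_lit 0x28192) (nat_lit 0) (p (nat_lit 0x30092) (nat_lit 0) (p (nat_lit 0x18012) (nat_lit 0) pn))))))))))))))))))))) :=
  Cl.node (nat_lit 0xc9) (nat_lit 2) (by decide +kernel) (ClAll.succ (ClAll.succ ClAll.zero n61) s36)

def n67 : Cl (O (nat_lit 3)) (R (nat_lit 6353))
    (p (nat_lit 0x81) (nat_lit 0) (p (nat_lit 0x41) (nat_lit 1) (p (nat_lit 0x8a0b09890a9a) (nat_lit 0) (p (nat_lit 0x98a89088a1a) (nat_lit 0) (p (nat_lit 0x890a0888079a) (nat_lit 0) (p (nat_lit 0x8898807871a) (nat_lit 0) (p (nat_lit 0x80000800080787088a) (nat_lit 0) (p (nat_lit 0x80000800078706860a) (nat_lit 0) (p (nat_lit 0x8806860782) (nat_lit 0) (p (nat_lit 0x786058702) (nat_lit 0) (p (nat_lit 0x8705850482) (nat_lit 0) (p (nat_lit 0x685048402) (nat_lit 0) (p (nat_lit 0x160014) (nat_lit 0) (p (nat_lit 0x60592) (nat_lit 0) (p (nat_lit 0x48512) (nat_lit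 0) (p (nat_lit 0x50392) (nat_lit 0) (p (nat_lit 0x38312) (nat_lit 0) (p (nat_lit 0x40212) (nat_lit 0) (p (nat_lit 0x28192) (nat_lit 0) (p (nat_lit 0x30092) (nat_lit 0) (p (nat_lit 0x18012) (nat_lit 0) pn))))))))))))))))))))) :=
  Cl.node (nat_lit 0xd1) (nat_lit 2) (by decide +kernel) (ClAll.succ (ClAll.succ ClAll.zero n62) n63)

def n68 : Cl (O (nat_lit 3)) (R (nat_lit 6353))
    (p (nat_lit 0x81) (nat_lit 1) (p (nat_lit 0x41) (nat_lit 1) (p (nat_lit 0x8a0b09890a9a) (nat_lit 0) (p (nat_lit 0x98a89088a1a) (nat_lit 0) (p (nat_lit 0x890a0888079a) (nat_lit 0) (p (nat_lit 0x8898807871a) (nat_lit 0) (p (nat_lit 0x80000800080787088a) (nat_lit 0) (p (nat_lit 0x80000800078706860a) (nat_lit 0) (p (nat_lit 0x8806860782) (nat_lit 0) (p (nat_lit 0x786058702) (nat_lit 0) (p (nat_lit 0x8705850482) (nat_lit 0) (p (nat_lit 0x685048402) (nat_lit 0) (p (nat_lit 0x160014) (nat_lit 0) (p (nat_lit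 0x60592) (nat_lit 0) (p (nat_lit 0x48512) (nat_lit 0) (p (nat_lit 0x50392) (nat_lit 0) (p (nat_lit 0x38312) (nat_lit 0) (p (nat_lit 0x40212) (nat_lit 0) (p (nat_lit 0x28192) (nat_lit 0) (p (nat_lit 0x30092) (nat_lit 0) (p (nat_lit 0x18012) (nat_lit 0) pn))))))))))))))))))))) :=
  Cl.node (nat_lit 0xc1) (nat_lit 2) (by decide +kernel) (ClAll.succ (ClAll.succ ClAll.zero n64) s72)

def n69 : Cl (O (nat_lit 3)) (R (nat_lit 6353))
    (p (nat_lit 0x41) (nat_lit 0) (p (nat_lit 0x8a0b09890a9a) (nat_lit 0) (p (nat_lit 0x98a89088a1a) (nat_lit 0) (p (nat_lit 0x890a0888079a) (nat_lit 0) (p (nat_lit 0x8898807871a) (nat_lit 0) (p (nat_lit 0x80000800080787088a) (nat_lit 0) (p (nat_lit 0x80000800078706860a) (nat_lit 0) (p (nat_lit 0x8806860782) (nat_lit 0) (p (nat_lit 0x786058702) (nat_lit 0) (p (nat_lit 0x8705850482) (nat_lit 0) (p (nat_lit 0x685048402) (nat_lit 0) (p (nat_lit 0x160014) (nat_lit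 0) (p (nat_lit 0x60592) (nat_lit 0) (p (nat_lit 0x48512) (nat_lit 0) (p (nat_lit 0x50392) (nat_lit 0) (p (nat_lit 0x38312) (nat_lit 0) (p (nat_lit 0x40212) (nat_lit 0) (p (nat_lit 0x28192) (nat_lit 0) (p (nat_lit 0x30092) (nat_lit 0) (p (nat_lit 0x18012) (nat_lit 0) pn)))))))))))))))))))) :=
  Cl.node (nat_lit 0x89) (nat_lit 2) (by decide +kernel) (ClAll.succ (ClAll.succ ClAll.zero n65) n66)

def n70 : Cl (O (nat_lit 3)) (R (nat_lit 6353))
    (p (nat_lit 0x41) (nat_lit 1) (p (nat_lit 0x8a0b09890a9a) (nat_lit 0) (p (nat_lit 0x98a89088a1a) (nat_lit 0) (p (nat_lit 0x890a0888079a) (nat_lit 0) (p (nat_lit 0x8898807871a) (nat_lit 0) (p (nat_lit 0x80000800080787088a) (nat_lit 0) (p (nat_lit 0x80000800078706860a) (nat_lit 0) (p (nat_lit 0x8806860782) (nat_lit 0) (p (nat_lit 0x786058702) (nat_lit 0) (p (nat_lit 0x8705850482) (nat_lit 0) (p (nat_lit 0x685048402) (nat_lit 0) (p (nat_lit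 0x160014) (nat_lit 0) (p (nat_lit 0x60592) (nat_lit 0) (p (nat_lit 0x48512) (nat_lit 0) (p (nat_lit 0x50392) (nat_lit 0) (p (nat_lit 0x38312) (nat_lit 0) (p (nat_lit 0x40212) (nat_lit 0) (p (nat_lit 0x28192) (nat_lit 0) (p (nat_lit 0x30092) (nat_lit 0) (p (nat_lit 0x18012) (nat_lit 0) pn)))))))))))))))))))) :=
  Cl.node (nat_lit 0x81) (nat_lit 2) (by decide +kernel) (ClAll.succ (ClAll.succ ClAll.zero n67) n68)

def n71 : Cl (O (nat_lit 3)) (R (nat_lit 6353))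
    (p (nat_lit 0x8a0b09890a9a) (nat_lit 0) (p (nat_lit 0x98a89088a1a) (nat_lit 0) (p (nat_lit 0x890a0888079a) (nat_lit 0) (p (nat_lit 0x8898807871a) (nat_lit 0) (p (nat_lit 0x80000800080787088a) (nat_lit 0) (p (nat_lit 0x80000800078706860a) (nat_lit 0) (p (nat_lit 0x8806860782) (nat_lit 0) (p (nat_lit 0x786058702) (nat_lit 0) (p (nat_lit 0x8705850482) (nat_lit 0) (p (nat_lit 0x685048402) (nat_lit 0) (p (nat_lit 0x160014) (nat_lit 0) (p (nat_lit 0x60592) (nat_lit 0) (p (nat_lit 0x48512) (nat_lit 0) (p (nat_lit 0x50392) (nat_lit 0) (p (nat_lit 0x38312) (nat_lit 0) (p (nat_lit 0x40212) (nat_lit 0) (p (nat_lit 0x28192) (nat_lit 0) (p (nat_lit 0x30092) (nat_lit 0) (p (nat_lit 0x18012) (nat_lit 0) pn))))))))))))))))))) :=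
  Cl.node (nat_lit 0x41) (nat_lit 2) (by decide +kernel) (ClAll.succ (ClAll.succ ClAll.zero n69) n70)

def n72 : Cl (O (nat_lit 3)) (R (nat_lit 6353))
    (p (nat_lit 0x98a89088a1a) (nat_lit 0) (p (nat_lit 0x890a0888079a) (nat_lit 0) (p (nat_lit 0x8898807871a) (nat_lit 0) (p (nat_lit 0x80000800080787088a) (nat_lit 0) (p (nat_lit 0x80000800078706860a) (nat_lit 0) (p (nat_lit 0x8806860782) (nat_lit 0) (p (nat_lit 0x786058702) (nat_lit 0) (p (nat_lit 0x8705850482) (nat_lit 0) (p (nat_lit 0x685048402) (nat_lit 0) (p (nat_lit 0x160014) (nat_lit 0) (p (nat_lit 0x60592) (nat_lit 0) (p (nat_lit 0x48512) (nat_lit 0) (p (nat_lit 0x50392) (nat_lit 0) (p (nat_lit 0x38312) (nat_lit 0) (p (nat_lit 0x40212) (nat_lit 0) (p (nat_lit 0x28192) (nat_lit 0) (p (nat_lit 0x30092) (nat_lit 0) (p (nat_lit 0x18012) (nat_lit 0) pn)))))))))))))))))) :=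
  Cl.node (nat_lit 0x8a0b09890a9a) (nat_lit 1) (by decide +kernel) (ClAll.succ ClAll.zero n71)

def n73 : Cl (O (nat_lit 3)) (R (nat_lit 6353))
    (p (nat_lit 0x890a0888079a) (nat_lit 0) (p (nat_lit 0x8898807871a) (nat_lit 0) (p (nat_lit 0x80000800080787088a) (nat_lit 0) (p (nat_lit 0x80000800078706860a) (nat_lit 0) (p (nat_lit 0x8806860782) (nat_lit 0) (p (nat_lit 0x786058702) (nat_lit 0) (p (nat_lit 0x8705850482) (nat_lit 0) (p (nat_lit 0x685048402) (nat_lit 0) (p (nat_lit 0x160014) (nat_lit 0) (p (nat_lit 0x60592) (nat_lit 0) (p (nat_lit 0x48512) (nat_lit 0) (p (nat_lit 0x50392) (nat_lit 0) (p (nat_lit 0x38312) (nat_lit 0) (p (nat_lit 0x40212) (nat_lit 0) (p (nat_lit 0x28192) (nat_lit 0) (p (nat_lit 0x30092) (nat_lit 0) (p (nat_lit 0x18012) (nat_lit 0) pn))))))))))))))))) :=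
  Cl.node (nat_lit 0x98a89088a1a) (nat_lit 1) (by decide +kernel) (ClAll.succ ClAll.zero n72)

def n74 : Cl (O (nat_lit 3)) (R (nat_lit 6353))
    (p (nat_lit 0x8898807871a) (nat_lit 0) (p (nat_lit 0x80000800080787088a) (nat_lit 0) (p (nat_lit 0x80000800078706860a) (nat_lit 0) (p (nat_lit 0x8806860782) (nat_lit 0) (p (nat_lit 0x786058702) (nat_lit 0) (p (nat_lit 0x8705850482) (nat_lit 0) (p (nat_lit 0x685048402) (nat_lit 0) (p (nat_lit 0x160014) (nat_lit 0) (p (nat_lit 0x60592) (nat_lit 0) (p (nat_lit 0x48512) (nat_lit 0) (p (nat_lit 0x50392) (nat_lit 0) (p (nat_lit 0x38312) (nat_lit 0) (p (nat_lit 0x40212) (nat_lit 0) (p (nat_lit 0x28192) (nat_lit 0) (p (nat_lit 0x30092) (nat_lit 0) (p (nat_lit 0x18012) (nat_lit 0) pn)))))))))))))))) :=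
  Cl.node (nat_lit 0x890a0888079a) (nat_lit 1) (by decide +kernel) (ClAll.succ ClAll.zero n73)

def n75 : Cl (O (nat_lit 3)) (R (nat_lit 6353))
    (p (nat_lit 0x80000800080787088a) (nat_lit 0) (p (nat_lit 0x80000800078706860a) (nat_lit 0) (p (nat_lit 0x8806860782) (nat_lit 0) (p (nat_lit 0x786058702) (nat_lit 0) (p (nat_lit 0x8705850482) (nat_lit 0) (p (nat_lit 0x685048402) (nat_lit 0) (p (nat_lit 0x160014) (nat_lit 0) (p (nat_lit 0x60592) (nat_lit 0) (p (nat_lit 0x48512) (nat_lit 0) (p (nat_lit 0x50392) (nat_lit 0) (p (nat_lit 0x38312) (nat_lit 0) (p (nat_lit 0x40212) (nat_lit 0) (p (nat_lit 0x28192) (nat_lit 0) (p (nat_lit 0x30092) (nat_lit 0) (p (nat_lit 0x18012) (nat_lit 0) pn))))))))))))))) :=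
  Cl.node (nat_lit 0x8898807871a) (nat_lit 1) (by decide +kernel) (ClAll.succ ClAll.zero n74)

def n76 : Cl (O (nat_lit 3)) (R (nat_lit 6353))
    (p (nat_lit 0x80000800078706860a) (nat_lit 0) (p (nat_lit 0x8806860782) (nat_lit 0) (p (nat_lit 0x786058702) (nat_lit 0) (p (nat_lit 0x8705850482) (nat_lit 0) (p (nat_lit 0x685048402) (nat_lit 0) (p (nat_lit 0x160014) (nat_lit 0) (p (nat_lit 0x60592) (nat_lit 0) (p (nat_lit 0x48512) (nat_lit 0) (p (nat_lit 0x50392) (nat_lit 0) (p (nat_lit 0x38312) (nat_lit 0) (p (nat_lit 0x40212) (nat_lit 0) (p (nat_lit 0x28192) (nat_lit 0) (p (nat_lit 0x30092) (nat_lit 0) (p (nat_lit 0x18012) (nat_lit 0) pn)))))))))))))) :=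
  Cl.node (nat_lit 0x80000800080787088a) (nat_lit 1) (by decide +kernel) (ClAll.succ ClAll.zero n75)

def n77 : Cl (O (nat_lit 3)) (R (nat_lit 6353))
    (p (nat_lit 0x8806860782) (nat_lit 0) (p (nat_lit 0x786058702) (nat_lit 0) (p (nat_lit 0x8705850482) (nat_lit 0) (p (nat_lit 0x685048402) (nat_lit 0) (p (nat_lit 0x160014) (nat_lit 0) (p (nat_lit 0x60592) (nat_lit 0) (p (nat_lit 0x48512) (nat_lit 0) (p (nat_lit 0x50392) (nat_lit 0) (p (nat_lit 0x38312) (nat_lit 0) (p (nat_lit 0x40212) (nat_lit 0) (p (nat_lit 0x28192) (nat_lit 0) (p (nat_lit 0x30092) (nat_lit 0) (p (nat_lit 0x18012) (nat_lit 0) pn))))))))))))) :=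
  Cl.node (nat_lit 0x80000800078706860a) (nat_lit 1) (by decide +kernel) (ClAll.succ ClAll.zero n76)

def n78 : Cl (O (nat_lit 3)) (R (nat_lit 6353))
    (p (nat_lit 0x786058702) (nat_lit 0) (p (nat_lit 0x8705850482) (nat_lit 0) (p (nat_lit 0x685048402) (nat_lit 0) (p (nat_lit 0x160014) (nat_lit 0) (p (nat_lit 0x60592) (nat_lit 0) (p (nat_lit 0x48512) (nat_lit 0) (p (nat_lit 0x50392) (nat_lit 0) (p (nat_lit 0x38312) (nat_lit 0) (p (nat_lit 0x40212) (nat_lit 0) (p (nat_lit 0x28192) (nat_lit 0) (p (nat_lit 0x30092) (nat_lit 0) (p (nat_lit 0x18012) (nat_lit 0) pn)))))))))))) :=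
  Cl.node (nat_lit 0x8806860782) (nat_lit 1) (by decide +kernel) (ClAll.succ ClAll.zero n77)

def n79 : Cl (O (nat_lit 3)) (R (nat_lit 6353))
    (p (nat_lit 0x8705850482) (nat_lit 0) (p (nat_lit 0x685048402) (nat_lit 0) (p (nat_lit 0x160014) (nat_lit 0) (p (nat_lit 0x60592) (nat_lit 0) (p (nat_lit 0x48512) (nat_lit 0) (p (nat_lit 0x50392) (nat_lit 0) (p (nat_lit 0x38312) (nat_lit 0) (p (nat_lit 0x40212) (nat_lit 0) (p (nat_lit 0x28192) (nat_lit 0) (p (nat_lit 0x30092) (nat_lit 0) (p (nat_lit 0x18012) (nat_lit 0) pn))))))))))) :=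
  Cl.node (nat_lit 0x786058702) (nat_lit 1) (by decide +kernel) (ClAll.succ ClAll.zero n78)

def n80 : Cl (O (nat_lit 3)) (R (nat_lit 6353))
    (p (nat_lit 0x685048402) (nat_lit 0) (p (nat_lit 0x160014) (nat_lit 0) (p (nat_lit 0x60592) (nat_lit 0) (p (nat_lit 0x48512) (nat_lit 0) (p (nat_lit 0x50392) (nat_lit 0) (p (nat_lit 0x38312) (nat_lit 0) (p (nat_lit 0x40212) (nat_lit 0) (p (nat_lit 0x28192) (nat_lit 0) (p (nat_lit 0x30092) (nat_lit 0) (p (nat_lit 0x18012) (nat_lit 0) pn)))))))))) :=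
  Cl.node (nat_lit 0x8705850482) (nat_lit 1) (by decide +kernel) (ClAll.succ ClAll.zero n79)

def n81 : Cl (O (nat_lit 3)) (R (nat_lit 6353))
    (p (nat_lit 0x160014) (nat_lit 0) (p (nat_lit 0x60592) (nat_lit 0) (p (nat_lit 0x48512) (nat_lit 0) (p (nat_lit 0x50392) (nat_lit 0) (p (nat_lit 0x38312) (nat_lit 0) (p (nat_lit 0x40212) (nat_lit 0) (p (nat_lit 0x28192) (nat_lit 0) (p (nat_lit 0x30092) (nat_lit 0) (p (nat_lit 0x18012) (nat_lit 0) pn))))))))) :=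
  Cl.node (nat_lit 0x685048402) (nat_lit 1) (by decide +kernel) (ClAll.succ ClAll.zero n80)

def n82 : Cl (O (nat_lit 3)) (R (nat_lit 6353))
    (p (nat_lit 0x60592) (nat_lit 0) (p (nat_lit 0x48512) (nat_lit 0) (p (nat_lit 0x50392) (nat_lit 0) (p (nat_lit 0x38312) (nat_lit 0) (p (nat_lit 0x40212) (nat_lit 0) (p (nat_lit 0x28192) (nat_lit 0) (p (nat_lit 0x30092) (nat_lit 0) (p (nat_lit 0x18012) (nat_lit 0) pn)))))))) :=
  Cl.node (nat_lit 0x160014) (nat_lit 2) (by decide +kernel) (ClAll.succ (ClAll.succ ClAll.zero n81) s73)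

def n83 : Cl (O (nat_lit 3)) (R (nat_lit 6353))
    (p (nat_lit 0x48512) (nat_lit 0) (p (nat_lit 0x50392) (nat_lit 0) (p (nat_lit 0x38312) (nat_lit 0) (p (nat_lit 0x40212) (nat_lit 0) (p (nat_lit 0x28192) (nat_lit 0) (p (nat_lit 0x30092) (nat_lit 0) (p (nat_lit 0x18012) (nat_lit 0) pn))))))) :=
  Cl.node (nat_lit 0x60592) (nat_lit 1) (by decide +kernel) (ClAll.succ ClAll.zero n82)

def n84 : Cl (O (nat_lit 3)) (R (nat_lit 6353))
    (p (nat_lit 0x50392) (nat_lit 0) (p (nat_lit 0x38312) (nat_lit 0) (p (nat_lit 0x40212) (nat_lit 0) (p (nat_lit 0x28192) (nat_lit 0) (p (nat_lit 0x30092) (nat_lit 0) (p (nat_lit 0x18012) (nat_lit 0) pn)))))) :=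
  Cl.node (nat_lit 0x48512) (nat_lit 1) (by decide +kernel) (ClAll.succ ClAll.zero n83)

def n85 : Cl (O (nat_lit 3)) (R (nat_lit 6353))
    (p (nat_lit 0x38312) (nat_lit 0) (p (nat_lit 0x40212) (nat_lit 0) (p (nat_lit 0x28192) (nat_lit 0) (p (nat_lit 0x30092) (nat_lit 0) (p (nat_lit 0x18012) (nat_lit 0) pn))))) :=
  Cl.node (nat_lit 0x50392) (nat_lit 1) (by decide +kernel) (ClAll.succ ClAll.zero n84)

def n86 : Cl (O (nat_lit 3)) (R (nat_lit 6353))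
    (p (nat_lit 0x40212) (nat_lit 0) (p (nat_lit 0x28192) (nat_lit 0) (p (nat_lit 0x30092) (nat_lit 0) (p (nat_lit 0x18012) (nat_lit 0) pn)))) :=
  Cl.node (nat_lit 0x38312) (nat_lit 1) (by decide +kernel) (ClAll.succ ClAll.zero n85)

def n87 : Cl (O (nat_lit 3)) (R (nat_lit 6353))
    (p (nat_lit 0x28192) (nat_lit 0) (p (nat_lit 0x30092) (nat_lit 0) (p (nat_lit 0x18012) (nat_lit 0) pn))) :=
  Cl.node (nat_lit 0x40212) (nat_lit 1) (by decide +kernel) (ClAll.succ ClAll.zero n86)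

def n88 : Cl (O (nat_lit 3)) (R (nat_lit 6353))
    (p (nat_lit 0x30092) (nat_lit 0) (p (nat_lit 0x18012) (nat_lit 0) pn)) :=
  Cl.node (nat_lit 0x28192) (nat_lit 1) (by decide +kernel) (ClAll.succ ClAll.zero n87)

def n89 : Cl (O (nat_lit 3)) (R (nat_lit 6353))
    (p (nat_lit 0x18012) (nat_lit 0) pn) :=
  Cl.node (nat_lit 0x30092) (nat_lit 1) (by decide +kernel) (ClAll.succ ClAll.zero n88)

def n90 : Cl (O (nat_lit 3)) (R (nat_lit 6353))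
    pn :=
  Cl.node (nat_lit 0x18012) (nat_lit 1) (by decide +kernel) (ClAll.succ ClAll.zero n89)

theorem top : Cl (O (nat_lit 3)) (R (nat_lit 6353)) pn := n90

end Pool.Agent.Gen.F5.X123D1Cm3
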